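import Mathlib

set_option autoImplicit false
set_option linter.unusedVariables false

namespace Pool.Agent.Helper93

/-- case `pB.f`, `qp.f` -/
theorem leaf1 {s t p1 P q1 Q w1 W α β : ℝ}
    (hα0 : 0 ≤ α) (hα1 : α < 1) (hβ0 : 0 ≤ β) (hβ1 : β < 1)
    (hq1 : q1 + α * Q = 1) (hw0 : 0 ≤ w1) (hws : w1 ≤ s)
    (pB : 1 / 2 < (p1 - s) + α * (P + t)) (qp : 1 / 2 < (q1 - p1) + α * (Q - P))
    (wL : 1 / 2 < w1 + α * W ∨ 1 / 2 < W + β * w1)
    (wT : 1 / 2 < (s - w1) + α * (1 - t - W) ∨ 1 / 2 < (1 - t - W) + β * (s - w1)) : False := by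
  have h1 : s < α * t := by nlinarith
  have hD : 0 < 1 - α * β := by nlinarith
  rcases wL with wL | wL <;> rcases wT with wT | wT
  · nlinarith
  · have h2 := mul_le_mul_of_nonneg_left wT.le hα0
    nlinarith [mul_nonneg (sub_nonneg.2 hws) hD.le]
  · have h2 := mul_le_mul_of_nonneg_left wL.le hα0
    nlinarith [mul_nonneg hw0 hD.le]
  · have h2 : t < β * s := by nlinarith
    have h3 := mul_le_mul_of_nonneg_left h2.le hα0
    nlinarith [mul_nonneg (hw0.trans hws) hD.le]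

/-- the three cases of `wL`, `wT` other than `g, g` give `s - α t ≥ (1 - α) / 2` -/
theorem aux_w {s t w1 W α β : ℝ}
    (hα0 : 0 ≤ α) (hα1 : α < 1) (hβ0 : 0 ≤ β) (hβ1 : β < 1) (hw0 : 0 ≤ w1) (hws : w1 ≤ s)
    (wL : 1 / 2 < w1 + α * W ∨ 1 / 2 < W + β * w1)
    (wT : 1 / 2 < (s - w1) + α * (1 - t - W) ∨ 1 / 2 < (1 - t - W) + β * (s - w1)) :
    (1 / 2 < W + β * w1 ∧ 1 / 2 < (1 - t - W) + β * (s - w1)) ∨ ((1 - α) / 2 ≤ s - α * t) := by
  have hD : 0 < 1 - α * β := by nlinarith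
  rcases wL with h1 | h1 <;> rcases wT with h2 | h2
  · right; nlinarith
  · right
    have h3 := mul_le_mul_of_nonneg_left h2.le hα0
    nlinarith [mul_nonneg (sub_nonneg.2 hws) hD.le]
  · right
    have h3 := mul_le_mul_of_nonneg_left h1.le hα0
    nlinarith [mul_nonneg hw0 hD.le]
  · left; exact ⟨h1, h2⟩

theorem l2_ff {s t p1 P q1 Q w1 W β a : ℝ} (hβ0 : 0 ≤ β) (ha0 : 0 ≤ a)
    (hP : P + β * p1 < 1 / 2) (h2 : t < β * s) (h3 : q1 / 2 + s < p1) (hs2 : s < q1 / 2)
    (hq2 : Q + β * q1 = 1) (hw1 : w1 = a * W) (hws : w1 ≤ s) (hq0 : 0 < q1) (hQ0 : 0 < Q)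
    (hW0 : 0 < W)
    (BL : 1 / 2 < s + a * t) (pR : 1 / 2 < (1 - p1) + a * P)
    (wL : 1 / 2 < W + β * w1) : False := by
  have hab : 0 ≤ a * β := mul_nonneg ha0 hβ0
  have h5 : 1 / 2 < s * (1 + a * β) := by
    have := mul_le_mul_of_nonneg_left h2.le ha0
    have e : s * (1 + a * β) = s + a * (β * s) := by ring
    linarith
  have h6 : p1 * (1 + a * β) < (1 + a) / 2 := by
    have := mul_le_mul_of_nonneg_left hP.le ha0
    have e : p1 * (1 + a * β) = p1 + a * (P + β * p1) - a * P := by ring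
    linarith
  have h7 : q1 * (1 + a * β) < a := by
    have h8 := mul_lt_mul_of_pos_right h3 (show (0 : ℝ) < 1 + a * β by linarith)
    have e : (q1 / 2 + s) * (1 + a * β) = q1 * (1 + a * β) / 2 + s * (1 + a * β) := by ring
    linarith
  have h8 : q1 < a * Q := by
    have e : q1 * (1 + a * β) = q1 + a * (Q + β * q1) - a * Q := by ring
    rw [hq2] at e
    linarith
  have h9 : q1 * W < Q * w1 := by
    have := mul_lt_mul_of_pos_right h8 hW0
    have e : a * Q * W = Q * w1 := by rw [hw1]; ring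
    linarith
  have h10 : Q * w1 ≤ Q * (q1 / 2) := by
    apply mul_le_mul_of_nonneg_left _ hQ0.le; linarith
  have h11 : W < Q / 2 := by
    have : q1 * W < q1 * (Q / 2) := by
      have e : Q * (q1 / 2) = q1 * (Q / 2) := by ring
      linarith
    exact lt_of_mul_lt_mul_left this hq0.le
  have h12 : β * w1 ≤ β * (q1 / 2) := mul_le_mul_of_nonneg_left (by linarith) hβ0
  have e : β * (q1 / 2) = (Q + β * q1) / 2 - Q / 2 := by ring
  rw [hq2] at e
  linarith

theorem l2_fg {s t p1 P q1 Q w1 W β a b : ℝ} (hβ0 : 0 ≤ β) (ha0 : 0 ≤ a) (hb0 : 0 ≤ b)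
    (hP : P + β * p1 < 1 / 2) (h2 : t < β * s) (h3 : q1 / 2 + s < p1) (hs2 : s < q1 / 2)
    (hq11 : q1 ≤ 1) (hw0 : 0 ≤ w1)
    (hw1 : w1 = a * W) (hw2 : W + b * (1 - w1) = 1) (hws : w1 ≤ s) (hW0 : 0 < W)
    (BL : 1 / 2 < s + a * t) (pR : 1 / 2 < P + b * (1 - p1))
    (wL : 1 / 2 < W + β * w1) : False := by
  have h5 : 1 / 2 < s + a * (β * s) := by
    have := mul_le_mul_of_nonneg_left h2.le ha0
    linarith
  have h6 : β * p1 < b * (1 - p1) := by linarith
  have h7 : b * (1 - w1) < 1 / 2 + β * w1 := by linarith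
  have h8 : 1 / 2 - s < β * w1 := by
    have h9 : W * (1 / 2 - s) < β * s * w1 := by
      have h10 := mul_lt_mul_of_pos_right h5 hW0
      have e : (s + a * (β * s)) * W = s * W + β * s * (a * W) := by ring
      rw [← hw1] at e
      have e2 : W * (1 / 2 - s) = 1 / 2 * W - s * W := by ring
      linarith
    have h10 : (1 / 2 - β * w1) * (1 / 2 - s) ≤ W * (1 / 2 - s) := by
      apply mul_le_mul_of_nonneg_right _ _ <;> linarith
    have e : (1 / 2 - β * w1) * (1 / 2 - s) = 1 / 4 - s / 2 - β * w1 / 2 + β * s * w1 := by ring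
    linarith
  have h9 : 2 * β * s ≤ b * (1 - 2 * s) := by
    have h11 : β * (2 * s) ≤ β * p1 := mul_le_mul_of_nonneg_left (by linarith) hβ0
    have h10 : b * (1 - p1) ≤ b * (1 - 2 * s) := mul_le_mul_of_nonneg_left (by linarith) hb0
    have e : β * (2 * s) = 2 * β * s := by ring
    linarith
  have h10 : 2 * β * s * (1 - w1) ≤ (1 / 2 + β * w1) * (1 - 2 * s) := by
    have h11 : 2 * β * s * (1 - w1) ≤ b * (1 - 2 * s) * (1 - w1) :=
      mul_le_mul_of_nonneg_right h9 (by linarith)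
    have h12 : b * (1 - w1) * (1 - 2 * s) ≤ (1 / 2 + β * w1) * (1 - 2 * s) :=
      mul_le_mul_of_nonneg_right h7.le (by linarith)
    have e : b * (1 - 2 * s) * (1 - w1) = b * (1 - w1) * (1 - 2 * s) := by ring
    linarith
  have h11 : β * w1 ≤ β * s := mul_le_mul_of_nonneg_left hws hβ0
  have e1 : 2 * β * s * (1 - w1) = 2 * (β * s) - 2 * (β * s * w1) := by ring
  have e2 : (1 / 2 + β * w1) * (1 - 2 * s) = 1 / 2 - s + β * w1 - 2 * (β * s * w1) := by ring
  linarith

theorem l2_gf {s t p1 P q1 Q w1 W β a b : ℝ} (hβ0 : 0 ≤ β) (hβ1 : β < 1) (ha0 : 0 ≤ a)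
    (hb0 : 0 ≤ b) (hb1 : b < 1)
    (hP : P + β * p1 < 1 / 2) (h2 : t < β * s) (h3 : q1 / 2 + s < p1) (hs2 : s < q1 / 2)
    (hs0 : 0 ≤ s)
    (hw1 : w1 = a * W) (hws : w1 ≤ s) (hW0 : 0 < W)
    (BL : 1 / 2 < t + b * s) (pR : 1 / 2 < (1 - p1) + a * P)
    (wL : 1 / 2 < W + β * w1) : False := by
  have hab : 0 ≤ a * β := mul_nonneg ha0 hβ0
  have h5 : 1 / 2 < β * s + b * s := by linarith
  have h6 : p1 * (1 + a * β) < (1 + a) / 2 := by
    have := mul_le_mul_of_nonneg_left hP.le ha0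
    have e : p1 * (1 + a * β) = p1 + a * (P + β * p1) - a * P := by ring
    linarith
  have h7 : 4 * s * (1 + a * β) < 1 + a := by
    have : 2 * s * (1 + a * β) ≤ p1 * (1 + a * β) := by
      apply mul_le_mul_of_nonneg_right (by linarith); linarith
    linarith
  have h13 : b * s ≤ 1 * s := mul_le_mul_of_nonneg_right hb1.le hs0
  have h14 : β * s ≤ 1 * s := mul_le_mul_of_nonneg_right hβ1.le hs0
  have h8 : 1 / 4 < s := by linarith
  have h9 : 4 * s * (W + β * w1) < W + w1 := by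
    have h10 := mul_lt_mul_of_pos_right h7 hW0
    have e : 4 * s * (1 + a * β) * W = 4 * s * (W + β * (a * W)) := by ring
    have e2 : (1 + a) * W = W + a * W := by ring
    rw [← hw1] at e e2
    linarith
  have h10 : (1 / 2 - β * w1) * (4 * s - 1) ≤ W * (4 * s - 1) := by
    apply mul_le_mul_of_nonneg_right _ _ <;> linarith
  have h11 : 2 * s - 1 / 2 < w1 * (1 - β) := by
    have e1 : (1 / 2 - β * w1) * (4 * s - 1) = 2 * s - 1 / 2 - 4 * (β * w1 * s) + β * w1 := by ring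
    have e2 : 4 * s * (W + β * w1) = 4 * s * W + 4 * (β * w1 * s) := by ring
    have e3 : W * (4 * s - 1) = 4 * s * W - W := by ring
    have e4 : w1 * (1 - β) = w1 - β * w1 := by ring
    linarith
  have h12 : w1 * (1 - β) ≤ s * (1 - β) := mul_le_mul_of_nonneg_right hws (by linarith)
  have e : s * (1 - β) = s - β * s := by ring
  linarith

theorem l2_gg {s t p1 P q1 β b : ℝ} (hβ0 : 0 ≤ β) (hb0 : 0 ≤ b) (hb1 : b < 1)
    (hP : P + β * p1 < 1 / 2) (h2 : t < β * s) (h3 : q1 / 2 + s < p1) (hs2 : s < q1 / 2)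
    (BL : 1 / 2 < t + b * s) (pR : 1 / 2 < P + b * (1 - p1)) : False := by
  have h5 : 1 / 2 < s * (β + b) := by
    have e : s * (β + b) = β * s + b * s := by ring
    linarith
  have h6 : p1 * (β + b) < b := by
    have e : p1 * (β + b) = β * p1 + b - b * (1 - p1) := by ring
    linarith
  have h7 : 2 * s * (β + b) ≤ p1 * (β + b) := by
    apply mul_le_mul_of_nonneg_right (by linarith); linarith
  linarith

/-- case `pB.f`, `qp.g` -/
theorem leaf2 {s t p1 P q1 Q w1 W α β a b : ℝ}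
    (hα0 : 0 ≤ α) (hα1 : α < 1) (hβ0 : 0 ≤ β) (hβ1 : β < 1)
    (ha0 : 0 ≤ a) (hb0 : 0 ≤ b) (hb1 : b < 1)
    (hq1 : q1 + α * Q = 1) (hq2 : Q + β * q1 = 1) (hw1 : w1 = a * W) (hw2 : W + b * (1 - w1) = 1)
    (hw0 : 0 ≤ w1) (hws : w1 ≤ s) (hpq : p1 ≤ q1) (hq0 : 0 < q1) (hq11 : q1 ≤ 1)
    (hW0 : 0 < W) (hQ0 : 0 < Q)
    (pB : 1 / 2 < (p1 - s) + α * (P + t)) (qp : 1 / 2 < (Q - P) + β * (q1 - p1))
    (BL : 1 / 2 < s + a * t ∨ 1 / 2 < t + b * s)
    (pR : 1 / 2 < (1 - p1) + a * P ∨ 1 / 2 < P + b * (1 - p1))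
    (wL : 1 / 2 < w1 + α * W ∨ 1 / 2 < W + β * w1)
    (wT : 1 / 2 < (s - w1) + α * (1 - t - W) ∨ 1 / 2 < (1 - t - W) + β * (s - w1)) : False := by
  have hD : 0 < 1 - α * β := by nlinarith
  have hP : P + β * p1 < 1 / 2 := by
    have e : β * (q1 - p1) = β * q1 - β * p1 := by ring
    linarith
  have hqD : q1 * (1 - α * β) = 1 - α := by
    linear_combination hq1 - α * hq2
  have h1 : (1 - α) / 2 + (s - α * t) < p1 * (1 - α * β) := by
    have h2 := mul_le_mul_of_nonneg_left hP.le hα0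
    have e : p1 * (1 - α * β) = p1 + α * P - α * (P + β * p1) := by ring
    have e2 : α * (P + t) = α * P + α * t := by ring
    linarith
  rcases aux_w hα0 hα1 hβ0 hβ1 hw0 hws wL wT with ⟨wL, wT⟩ | key
  · have h2 : t < β * s := by
      have e : β * (s - w1) = β * s - β * w1 := by ring
      linarith
    have h3 : q1 / 2 + s < p1 := by
      have h4 : (q1 / 2 + s) * (1 - α * β) < p1 * (1 - α * β) := by
        have h5 := mul_le_mul_of_nonneg_left h2.le hα0
        have e : (q1 / 2 + s) * (1 - α * β) = q1 * (1 - α * β) / 2 + s - α * (β * s) := by ring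
        rw [hqD] at e
        linarith
      exact lt_of_mul_lt_mul_right h4 hD.le
    have hs2 : s < q1 / 2 := by linarith
    have hs0 : 0 ≤ s := hw0.trans hws
    rcases BL with BL | BL <;> rcases pR with pR | pR
    · exact l2_ff hβ0 ha0 hP h2 h3 hs2 hq2 hw1 hws hq0 hQ0 hW0 BL pR wL
    · exact l2_fg (Q := Q) hβ0 ha0 hb0 hP h2 h3 hs2 hq11 hw0 hw1 hw2 hws hW0 BL pR wL
    · exact l2_gf (Q := Q) hβ0 hβ1 ha0 hb0 hb1 hP h2 h3 hs2 hs0 hw1 hws hW0 BL pR wL
    · exact l2_gg hβ0 hb0 hb1 hP h2 h3 hs2 BL pR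
  · have h2 : p1 * (1 - α * β) ≤ q1 * (1 - α * β) := mul_le_mul_of_nonneg_right hpq hD.le
    linarith

/-- case `pB.g`, `qp.f`, except `wL.g, wT.g` -/
theorem leaf3a {s t p1 P q1 Q α β : ℝ}
    (hα0 : 0 ≤ α) (hα1 : α < 1) (hβ0 : 0 ≤ β) (hβ1 : β < 1)
    (hq1 : q1 + α * Q = 1) (hsp : s ≤ p1)
    (pB : 1 / 2 < (P + t) + β * (p1 - s)) (qp : 1 / 2 < (q1 - p1) + α * (Q - P))
    (key : (1 - α) / 2 ≤ s - α * t) : False := by
  have hD : 0 < 1 - α * β := by nlinarith
  have h1 : p1 - s < α * (1 / 2 - (P + t)) := by nlinarith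
  have h2 : 0 < 1 / 2 - (P + t) := by
    by_contra hc
    push Not at hc
    nlinarith
  have h3 := mul_le_mul_of_nonneg_left h1.le hβ0
  nlinarith [mul_pos h2 hD]

/-- case `pB.g`, `qp.f`, `wL.g, wT.g`, `qR.g` -/
theorem leaf3g {s t p1 P q1 Q w1 W α β b : ℝ}
    (hα0 : 0 ≤ α) (hα1 : α < 1) (hβ0 : 0 ≤ β) (hβ1 : β < 1)
    (hb0 : 0 ≤ b) (hb1 : b < 1)
    (hq1 : q1 + α * Q = 1) (hq2 : Q + β * q1 = 1) (hw2 : W + b * (1 - w1) = 1)
    (hw0 : 0 ≤ w1)
    (pB : 1 / 2 < (P + t) + β * (p1 - s)) (qp : 1 / 2 < (q1 - p1) + α * (Q - P))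
    (wL : 1 / 2 < W + β * w1)
    (wT : 1 / 2 < (1 - t - W) + β * (s - w1))
    (wp : 1 / 2 < (W - P) + b * (p1 - w1))
    (qR : 1 / 2 < Q + b * (1 - q1)) : False := by
  have hD : 0 < 1 - α * β := by nlinarith
  have hp : p1 + α * P < 1 / 2 := by
    have e : α * (Q - P) = α * Q - α * P := by ring
    linarith
  have hQD : Q * (1 - α * β) = 1 - β := by linear_combination hq2 - β * hq1
  have hB : (1 - β) / 2 + (β * s - t) < P * (1 - α * β) := by
    have h := mul_le_mul_of_nonneg_left hp.le hβ0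
    have e : β * (p1 + α * P) = β * p1 + P - P * (1 - α * β) := by ring
    have e2 : β * (p1 - s) = β * p1 - β * s := by ring
    linarith
  have hA : 1 / 2 - b + (b + β) * w1 < β * s - t := by
    have e : (b + β) * w1 = b * w1 + β * w1 := by ring
    have e2 : b * (1 - w1) = b - b * w1 := by ring
    have e3 : β * (s - w1) = β * s - β * w1 := by ring
    linarith
  have hC : P * (1 + α * b) < (1 - b) / 2 := by
    have h := mul_le_mul_of_nonneg_left hp.le hb0
    have e : b * (p1 + α * P) = b * p1 + P * (1 + α * b) - P := by ring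
    have e2 : b * (1 - w1) = b - b * w1 := by ring
    have e3 : b * (p1 - w1) = b * p1 - b * w1 := by ring
    linarith
  have h1 : 1 / 2 < Q * (1 + α * b) := by
    have e : Q * (1 + α * b) = Q + b * (1 - q1) + b * (q1 + α * Q) - b := by ring
    rw [hq1] at e
    linarith
  have hab : 0 ≤ α * b := mul_nonneg hα0 hb0
  have hwb : 0 ≤ (b + β) * w1 := mul_nonneg (by linarith) hw0
  have h2 : (1 - α * β) < 2 * (1 - β) * (1 + α * b) := by
    have h := mul_lt_mul_of_pos_right h1 hD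
    have e : Q * (1 + α * b) * (1 - α * β) = Q * (1 - α * β) * (1 + α * b) := by ring
    rw [hQD] at e
    linarith
  have h3 : ((1 - β) / 2 + (1 / 2 - b)) < P * (1 - α * β) := by linarith
  have h4 : ((1 - β) / 2 + (1 / 2 - b)) * (1 + α * b) < (1 - b) / 2 * (1 - α * β) := by
    have h5 := mul_lt_mul_of_pos_right h3 (show (0 : ℝ) < 1 + α * b by linarith)
    have h6 := mul_lt_mul_of_pos_right hC hD
    have e : P * (1 - α * β) * (1 + α * b) = P * (1 + α * b) * (1 - α * β) := by ring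
    linarith
  have h5 : (1 - b) / 2 * (1 - α * β) ≤ (1 - b) / 2 * (2 * (1 - β) * (1 + α * b)) :=
    mul_le_mul_of_nonneg_left h2.le (by linarith)
  have h6 : ((1 - β) / 2 + (1 / 2 - b)) < (1 - b) * (1 - β) := by
    have h7 : ((1 - β) / 2 + (1 / 2 - b)) * (1 + α * b) < ((1 - b) * (1 - β)) * (1 + α * b) := by
      have e : (1 - b) / 2 * (2 * (1 - β) * (1 + α * b)) = ((1 - b) * (1 - β)) * (1 + α * b) := by
        ring
      linarith
    exact lt_of_mul_lt_mul_right h7 (by linarith)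
  have h7 : β * (1 - 2 * b) < 0 := by
    have e : (1 - b) * (1 - β) = 1 - b - β + β * b := by ring
    have e2 : β * (1 - 2 * b) = β - 2 * (β * b) := by ring
    linarith
  have h8 : b < 1 / 2 := by
    have h9 : (1 - β) / 2 + 0 < P * (1 - α * β) ∨ b > 1 / 2 - 0 := by
      by_cases hb : b ≤ 1 / 2
      · left; linarith
      · right; linarith
    rcases h9 with h9 | h9
    · have h10 : Q / 2 < P := by
        have : Q / 2 * (1 - α * β) < P * (1 - α * β) := by
          have e : Q / 2 * (1 - α * β) = Q * (1 - α * β) / 2 := by ring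
          rw [hQD] at e
          linarith
        exact lt_of_mul_lt_mul_right this hD.le
      have h11 : Q / 2 * (1 + α * b) ≤ P * (1 + α * b) :=
        mul_le_mul_of_nonneg_right h10.le (by linarith)
      linarith
    · exfalso
      have hκ : 0 < β * s - t := by
        have e3 : β * (s - w1) = β * s - β * w1 := by ring
        linarith
      have h10 : Q / 2 < P := by
        have : Q / 2 * (1 - α * β) < P * (1 - α * β) := by
          have e : Q / 2 * (1 - α * β) = Q * (1 - α * β) / 2 := by ring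
          rw [hQD] at e
          linarith
        exact lt_of_mul_lt_mul_right this hD.le
      have h11 : Q / 2 * (1 + α * b) ≤ P * (1 + α * b) :=
        mul_le_mul_of_nonneg_right h10.le (by linarith)
      linarith
  have h9 : 0 ≤ β * (1 - 2 * b) := mul_nonneg hβ0 (by linarith)
  linarith

end Pool.Agent.Helper93
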