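import Mathlib

set_option autoImplicit false
set_option linter.unusedVariables false

namespace Pool.Agent.Helper93

/-- the polynomial inequality behind the case `pB.g`, `qp.f`, `wL.g, wT.g`, `qR.f` -/
theorem poly3f {α b c E : ℝ} (hα0 : 0 ≤ α) (hα1 : α < 1) (hb : 0 ≤ b) (hc : 0 ≤ c) (hE : 0 < E)
    (h1 : b + c + E = 1)
    (hr : 0 < (1 - α) * E - 2 * α * b * c)
    (hG : α * (1 - c) * c + (1 + b - c) * (1 - b) * (1 + α * b) * (1 - α - α * c) <
      c * (b - c) * (1 + 2 * α * b)) : False := by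
  have hE' : E = 1 - b - c := by linarith
  have hK : 0 ≤ (1 + b - c) * (1 - b) * (1 + α * b) - c * (b - c) := by
    have h2 : 0 ≤ (1 + b - c) * (1 - b) - c * (b - c) := by
      have h3 : (1 + b - c) * (1 - b) - c * (b - c) = E + b * c + b * E + c ^ 2 := by
        rw [hE']; ring
      rw [h3]; positivity
    have h4 : 0 ≤ (1 + b - c) * (1 - b) := by
      apply mul_nonneg <;> linarith
    have h5 : 0 ≤ (1 + b - c) * (1 - b) * (α * b) := by positivity
    have e : (1 + b - c) * (1 - b) * (1 + α * b) - c * (b - c) =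
      ((1 + b - c) * (1 - b) - c * (b - c)) + (1 + b - c) * (1 - b) * (α * b) := by ring
    linarith
  have hM0 : 0 ≤ (1 + b - c) * (1 - b) * (2 * b - E) - (b - c) * (E + 2 * b * c + 2 * b * E) +
      (1 - c) * E := by
    have e : (1 + b - c) * (1 - b) * (2 * b - E) - (b - c) * (E + 2 * b * c + 2 * b * E) +
      (1 - c) * E = 2 * b * c ^ 2 + 2 * b ^ 2 * c + E * c ^ 2 + 3 * E * b * c + 2 * E * b ^ 2 +
        E ^ 2 * c + E ^ 2 * b := by
      rw [hE']; ring
    rw [e]; positivity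
  have hM1 : 0 ≤ ((1 + b - c) * (1 - b) * (2 * b - E) - (b - c) * (E + 2 * b * c + 2 * b * E) +
      (1 - c) * E) + b * (1 + b - c) * (1 - b) * (2 * b - E) := by
    have e : ((1 + b - c) * (1 - b) * (2 * b - E) - (b - c) * (E + 2 * b * c + 2 * b * E) +
      (1 - c) * E) + b * (1 + b - c) * (1 - b) * (2 * b - E) =
        2 * b * c ^ 3 + 4 * b ^ 2 * c ^ 2 + 6 * b ^ 3 * c + E * c ^ 3 + 6 * E * b * c ^ 2 +
        7 * E * b ^ 2 * c + 6 * E * b ^ 3 + 2 * E ^ 2 * c ^ 2 + 4 * E ^ 2 * b * c +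
        3 * E ^ 2 * b ^ 2 + E ^ 3 * c := by
      rw [hE']; ring
    rw [e]; positivity
  have key : E * ((α * (1 - c) * c + (1 + b - c) * (1 - b) * (1 + α * b) * (1 - α - α * c)) -
      c * (b - c) * (1 + 2 * α * b)) =
      ((1 - α) * E - 2 * α * b * c) * ((1 + b - c) * (1 - b) * (1 + α * b) - c * (b - c)) +
      α * c * ((1 - α) * ((1 + b - c) * (1 - b) * (2 * b - E) -
        (b - c) * (E + 2 * b * c + 2 * b * E) + (1 - c) * E) +
        α * (((1 + b - c) * (1 - b) * (2 * b - E) - (b - c) * (E + 2 * b * c + 2 * b * E) +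
      (1 - c) * E) + b * (1 + b - c) * (1 - b) * (2 * b - E))) := by
    rw [hE']; ring
  have h7 : 0 ≤ ((1 - α) * E - 2 * α * b * c) *
      ((1 + b - c) * (1 - b) * (1 + α * b) - c * (b - c)) := mul_nonneg hr.le hK
  have h8 : 0 ≤ α * c * ((1 - α) * ((1 + b - c) * (1 - b) * (2 * b - E) -
        (b - c) * (E + 2 * b * c + 2 * b * E) + (1 - c) * E) +
        α * (((1 + b - c) * (1 - b) * (2 * b - E) - (b - c) * (E + 2 * b * c + 2 * b * E) +
      (1 - c) * E) + b * (1 + b - c) * (1 - b) * (2 * b - E))) := by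
    apply mul_nonneg (mul_nonneg hα0 hc)
    apply add_nonneg
    · exact mul_nonneg (by linarith) hM0
    · exact mul_nonneg hα0 hM1
  have h9 : E * ((α * (1 - c) * c + (1 + b - c) * (1 - b) * (1 + α * b) * (1 - α - α * c)) -
      c * (b - c) * (1 + 2 * α * b)) < 0 := by
    apply mul_neg_of_pos_of_neg hE
    linarith
  linarith

/-- case `pB.g`, `qp.f`, `wL.g, wT.g`, `qR.f` -/
theorem leaf3f {s t p1 P q1 Q w1 W α β a b : ℝ}
    (hα0 : 0 ≤ α) (hα1 : α < 1) (hβ0 : 0 ≤ β) (hβ1 : β < 1)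
    (ha0 : 0 ≤ a) (hb0 : 0 ≤ b) (hb1 : b < 1)
    (hq1 : q1 + α * Q = 1) (hq2 : Q + β * q1 = 1) (hw1 : w1 = a * W) (hw2 : W + b * (1 - w1) = 1)
    (hw0 : 0 ≤ w1)
    (pB : 1 / 2 < (P + t) + β * (p1 - s)) (qp : 1 / 2 < (q1 - p1) + α * (Q - P))
    (wL : 1 / 2 < W + β * w1)
    (wT : 1 / 2 < (1 - t - W) + β * (s - w1))
    (wp : 1 / 2 < (W - P) + b * (p1 - w1))
    (qR : 1 / 2 < (1 - q1) + a * Q) : False := by
  have hD : 0 < 1 - α * β := by nlinarith
  have hp : p1 + α * P < 1 / 2 := by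
    have e : α * (Q - P) = α * Q - α * P := by ring
    linarith
  have hQD : Q * (1 - α * β) = 1 - β := by linear_combination hq2 - β * hq1
  have hB : (1 - β) / 2 + (β * s - t) < P * (1 - α * β) := by
    have h := mul_le_mul_of_nonneg_left hp.le hβ0
    have e : β * (p1 + α * P) = β * p1 + P - P * (1 - α * β) := by ring
    have e2 : β * (p1 - s) = β * p1 - β * s := by ring
    linarith
  have hA : 1 / 2 - b + (b + β) * w1 < β * s - t := by
    have e : (b + β) * w1 = b * w1 + β * w1 := by ring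
    have e2 : b * (1 - w1) = b - b * w1 := by ring
    have e3 : β * (s - w1) = β * s - β * w1 := by ring
    linarith
  have hC : P * (1 + α * b) < (1 - b) / 2 := by
    have h := mul_le_mul_of_nonneg_left hp.le hb0
    have e : b * (p1 + α * P) = b * p1 + P * (1 + α * b) - P := by ring
    have e2 : b * (1 - w1) = b - b * w1 := by ring
    have e3 : b * (p1 - w1) = b * p1 - b * w1 := by ring
    linarith
  have hκ : 0 < β * s - t := by
    have e3 : β * (s - w1) = β * s - β * w1 := by ring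
    linarith
  have hab : 0 ≤ α * b := mul_nonneg hα0 hb0
  have h10 : Q / 2 < P := by
    have : Q / 2 * (1 - α * β) < P * (1 - α * β) := by
      have e : Q / 2 * (1 - α * β) = Q * (1 - α * β) / 2 := by ring
      rw [hQD] at e
      linarith
    exact lt_of_mul_lt_mul_right this hD.le
  have h11 : Q * (1 + α * b) < 1 - b := by
    have : Q / 2 * (1 + α * b) ≤ P * (1 + α * b) :=
      mul_le_mul_of_nonneg_right h10.le (by linarith)
    linarith
  have h12 : (1 - β) * (1 + α * b) < (1 - b) * (1 - α * β) := by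
    have h := mul_lt_mul_of_pos_right h11 hD
    have e : Q * (1 + α * b) * (1 - α * β) = Q * (1 - α * β) * (1 + α * b) := by ring
    rw [hQD] at e
    linarith
  have hr : 0 < (1 - α) * (β - b) - 2 * α * b * (1 - β) := by
    have e : (1 - α) * (β - b) - 2 * α * b * (1 - β) =
      (1 - b) * (1 - α * β) - (1 - β) * (1 + α * b) := by ring
    linarith
  have hE : 0 < β - b := by
    have h : 0 ≤ 2 * α * b * (1 - β) := by
      apply mul_nonneg _ (by linarith)
      have : 2 * α * b = 2 * (α * b) := by ring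
      rw [this]; linarith
    have h2 : 0 < (1 - α) * (β - b) := by linarith
    by_contra hc
    have h3 : (1 - α) * (β - b) ≤ 0 := mul_nonpos_of_nonneg_of_nonpos (by linarith) (by linarith)
    linarith
  -- w1 ≥ a (1 - b)
  have hw1' : a * (1 - b) ≤ w1 := by
    have h : 0 ≤ b * w1 := mul_nonneg hb0 hw0
    have h2 : 1 - b ≤ W := by
      have e2 : b * (1 - w1) = b - b * w1 := by ring
      linarith
    have := mul_le_mul_of_nonneg_left h2 ha0
    linarith
  -- E
  have hEa : 1 - 2 * α + α * β < 2 * a * (1 - β) := by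
    have h : 1 / 2 < (α + a) * Q := by
      have e : (α + a) * Q = (q1 + α * Q) - q1 + a * Q := by ring
      rw [hq1] at e
      linarith
    have h2 := mul_lt_mul_of_pos_right h hD
    have e : (α + a) * Q * (1 - α * β) = (α + a) * (Q * (1 - α * β)) := by ring
    rw [hQD] at e
    have e2 : (α + a) * (1 - β) = α - α * β + a * (1 - β) := by ring
    have e3 : 1 / 2 * (1 - α * β) = 1 / 2 - α * β / 2 := by ring
    linarith
  -- G
  have hG : ((1 - β) / 2 + (1 / 2 - b) + (b + β) * w1) * (1 + α * b) <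
      (1 - b) / 2 * (1 - α * β) := by
    have h3 : ((1 - β) / 2 + (1 / 2 - b) + (b + β) * w1) < P * (1 - α * β) := by linarith
    have h5 := mul_lt_mul_of_pos_right h3 (show (0 : ℝ) < 1 + α * b by linarith)
    have h6 := mul_lt_mul_of_pos_right hC hD
    have e : P * (1 - α * β) * (1 + α * b) = P * (1 + α * b) * (1 - α * β) := by ring
    linarith
  refine poly3f (α := α) (b := b) (c := 1 - β) (E := β - b) hα0 hα1 hb0 (by linarith) hE
    (by ring) hr ?_
  -- lower bound for (b + β) w1 (1 - β)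
  have hX : (1 + b - (1 - β)) * (1 - b) * (1 + α * b) * (1 - α - α * (1 - β)) ≤
      2 * (1 - β) * ((b + β) * w1 * (1 + α * b)) := by
    have h1 : (1 - b) * (1 - α - α * (1 - β)) ≤ 2 * (1 - β) * w1 := by
      have h2 : (1 - b) * (1 - α - α * (1 - β)) ≤ (1 - b) * (2 * a * (1 - β)) := by
        apply mul_le_mul_of_nonneg_left _ (by linarith)
        have e : 1 - α - α * (1 - β) = 1 - 2 * α + α * β := by ring
        linarith
      have h3 : 2 * (1 - β) * (a * (1 - b)) ≤ 2 * (1 - β) * w1 :=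
        mul_le_mul_of_nonneg_left hw1' (by linarith)
      have e : (1 - b) * (2 * a * (1 - β)) = 2 * (1 - β) * (a * (1 - b)) := by ring
      linarith
    have h4 : 0 ≤ (b + β) * (1 + α * b) := by
      apply mul_nonneg <;> linarith
    have h5 := mul_le_mul_of_nonneg_left h1 h4
    have e1 : (b + β) * (1 + α * b) * ((1 - b) * (1 - α - α * (1 - β))) =
      (1 + b - (1 - β)) * (1 - b) * (1 + α * b) * (1 - α - α * (1 - β)) := by ring
    have e2 : (b + β) * (1 + α * b) * (2 * (1 - β) * w1) =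
      2 * (1 - β) * ((b + β) * w1 * (1 + α * b)) := by ring
    linarith
  have hG2 := mul_lt_mul_of_pos_left hG (show (0 : ℝ) < 2 * (1 - β) by linarith)
  have e3 : 2 * (1 - β) * (((1 - β) / 2 + (1 / 2 - b) + (b + β) * w1) * (1 + α * b)) =
    2 * (1 - β) * (((1 - β) / 2 + (1 / 2 - b)) * (1 + α * b)) +
      2 * (1 - β) * ((b + β) * w1 * (1 + α * b)) := by ring
  have e4 : α * (1 - (1 - β)) * (1 - β) + 2 * (1 - β) * ((1 - b) / 2 * (1 - α * β)) -
      2 * (1 - β) * (((1 - β) / 2 + (1 / 2 - b)) * (1 + α * b)) =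
      (1 - β) * (b - (1 - β)) * (1 + 2 * α * b) := by ring
  linarith

/-- case `pB.g`, `qp.g`, `wL.f`, `wT.g` -/
theorem leaf4fg {s t p1 P q1 Q w1 W α β a b : ℝ}
    (hα0 : 0 ≤ α) (hα1 : α < 1) (hβ0 : 0 ≤ β) (hβ1 : β < 1)
    (ha0 : 0 ≤ a) (ha1 : a < 1) (hb0 : 0 ≤ b) (hb1 : b < 1)
    (hq1 : q1 + α * Q = 1) (hq2 : Q + β * q1 = 1) (hw2 : W + b * (1 - w1) = 1)
    (hw0 : 0 ≤ w1) (hws : w1 ≤ s) (hsq : s ≤ q1) (hw11 : w1 < 1)
    (pB : 1 / 2 < (P + t) + β * (p1 - s)) (qp : 1 / 2 < (Q - P) + β * (q1 - p1))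
    (wL : 1 / 2 < w1 + α * W)
    (wT : 1 / 2 < (1 - t - W) + β * (s - w1))
    (qT : 1 / 2 < (q1 - s) + a * (1 - t - Q) ∨ 1 / 2 < (1 - t - Q) + b * (q1 - s)) : False := by
  have hD : 0 < 1 - α * β := by nlinarith
  have ht : β * s < t := by
    have e : β * (q1 - p1) = β * q1 - β * p1 := by ring
    have e2 : β * (p1 - s) = β * p1 - β * s := by ring
    linarith
  have hqD : q1 * (1 - α * β) = 1 - α := by linear_combination hq1 - α * hq2
  have hW : W < 1 / 2 - β * w1 := by
    have e : β * (s - w1) = β * s - β * w1 := by ring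
    linarith
  have h1 : q1 / 2 < w1 := by
    have h2 : q1 / 2 * (1 - α * β) < w1 * (1 - α * β) := by
      have h3 := mul_le_mul_of_nonneg_left hW.le hα0
      have e : q1 / 2 * (1 - α * β) = q1 * (1 - α * β) / 2 := by ring
      rw [hqD] at e
      have e2 : α * (1 / 2 - β * w1) = α / 2 - α * β * w1 := by ring
      have e3 : w1 * (1 - α * β) = w1 - α * β * w1 := by ring
      linarith
    exact lt_of_mul_lt_mul_right h2 hD.le
  have hWw : w1 < W := by
    have : b * (1 - w1) < 1 * (1 - w1) := mul_lt_mul_of_pos_right hb1 (by linarith)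
    linarith
  have h3 : (1 - t - Q) ≤ β * (q1 - s) := by
    have e : β * (q1 - s) = β * q1 - β * s := by ring
    linarith
  rcases qT with qT | qT
  · have h4 : a * (1 - t - Q) ≤ a * (β * (q1 - s)) := mul_le_mul_of_nonneg_left h3 ha0
    have h5 : a * (β * (q1 - s)) ≤ 1 * (β * (q1 - s)) :=
      mul_le_mul_of_nonneg_right ha1.le (mul_nonneg hβ0 (by linarith))
    have h6 : β * (q1 - s) ≤ β * w1 := mul_le_mul_of_nonneg_left (by linarith) hβ0
    linarith
  · have h5 : b * (q1 - s) ≤ 1 * (q1 - s) := mul_le_mul_of_nonneg_right hb1.le (by linarith)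
    have h6 : β * (q1 - s) ≤ β * w1 := mul_le_mul_of_nonneg_left (by linarith) hβ0
    linarith

/-- case `pB.g`, `qp.g`, `wL.g`, `wT.f` -/
theorem leaf4gf {s t p1 P q1 Q w1 W α β a b : ℝ}
    (hα0 : 0 ≤ α) (hα1 : α < 1) (hβ0 : 0 ≤ β) (hβ1 : β < 1)
    (ha0 : 0 ≤ a) (ha1 : a < 1) (hb0 : 0 ≤ b) (hb1 : b < 1)
    (hq1 : q1 + α * Q = 1) (hq2 : Q + β * q1 = 1) (hw1 : w1 = a * W) (hw2 : W + b * (1 - w1) = 1)
    (hw0 : 0 ≤ w1) (hws : w1 ≤ s) (hsq : s ≤ q1) (hw11 : w1 < 1) (hq11 : q1 ≤ 1) (hq0 : 0 < q1)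
    (hst : s + t < 1) (hW0 : 0 < W) (hQ0 : 0 < Q)
    (pB : 1 / 2 < (P + t) + β * (p1 - s)) (qp : 1 / 2 < (Q - P) + β * (q1 - p1))
    (wL : 1 / 2 < W + β * w1)
    (wT : 1 / 2 < (s - w1) + α * (1 - t - W))
    (qT : 1 / 2 < (q1 - s) + a * (1 - t - Q) ∨ 1 / 2 < (1 - t - Q) + b * (q1 - s))
    (qR : 1 / 2 < (1 - q1) + a * Q ∨ 1 / 2 < Q + b * (1 - q1)) : False := by
  have hD : 0 < 1 - α * β := by nlinarith
  have ht : β * s < t := by
    have e : β * (q1 - p1) = β * q1 - β * p1 := by ring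
    have e2 : β * (p1 - s) = β * p1 - β * s := by ring
    linarith
  have hqD : q1 * (1 - α * β) = 1 - α := by linear_combination hq1 - α * hq2
  have h1 : q1 / 2 < s - w1 := by
    have h2 : q1 / 2 * (1 - α * β) < (s - w1) * (1 - α * β) := by
      have h3 : α * (1 - t - W) ≤ α * (1 - β * s - (1 / 2 - β * w1)) :=
        mul_le_mul_of_nonneg_left (by linarith) hα0
      have e : q1 / 2 * (1 - α * β) = q1 * (1 - α * β) / 2 := by ring
      rw [hqD] at e
      have e2 : α * (1 - β * s - (1 / 2 - β * w1)) = α / 2 - α * β * (s - w1) := by ring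
      have e3 : (s - w1) * (1 - α * β) = (s - w1) - α * β * (s - w1) := by ring
      linarith
    exact lt_of_mul_lt_mul_right h2 hD.le
  have h3 : (1 - t - Q) ≤ β * (q1 - s) := by
    have e : β * (q1 - s) = β * q1 - β * s := by ring
    linarith
  rcases qT with qT | qT
  · -- qT.f
    have h4 : a * (1 - t - Q) ≤ a * (β * (q1 - s)) := mul_le_mul_of_nonneg_left h3 ha0
    have hab : 0 ≤ a * β := mul_nonneg ha0 hβ0
    have h5 : a * β * (q1 - s) ≤ a * β * (q1 / 2 - w1) := mul_le_mul_of_nonneg_left (by linarith) hab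
    have h6 : β * s < 1 / 2 := by
      have h7 : 2 * (β * s) ≤ (1 + β) * s := by nlinarith
      nlinarith
    have h7 : β * (q1 / 2) < W := by
      have h8 : β * (q1 / 2 + w1) ≤ β * s := mul_le_mul_of_nonneg_left (by linarith) hβ0
      have e : β * (q1 / 2 + w1) = β * (q1 / 2) + β * w1 := by ring
      linarith
    have h8 : a * (β * (q1 / 2)) ≤ w1 := by
      rw [hw1]; exact mul_le_mul_of_nonneg_left h7.le ha0
    have h9 : 0 ≤ a * β * w1 := mul_nonneg hab hw0
    have e : a * β * (q1 / 2 - w1) = a * (β * (q1 / 2)) - a * β * w1 := by ring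
    have e2 : a * (β * (q1 - s)) = a * β * (q1 - s) := by ring
    linarith
  · -- qT.g
    have hbβ : 0 ≤ β + b := by linarith
    have hI : 1 < (β + b) * (q1 - 2 * w1) := by
      have h4 : (β + b) * (q1 - s) ≤ (β + b) * (q1 / 2 - w1) :=
        mul_le_mul_of_nonneg_left (by linarith) hbβ
      have e : (β + b) * (q1 - s) = β * (q1 - s) + b * (q1 - s) := by ring
      have e2 : (β + b) * (q1 - 2 * w1) = 2 * ((β + b) * (q1 / 2 - w1)) := by ring
      linarith
    have hII : b * (1 - w1) < 1 / 2 + β * w1 := by linarith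
    rcases qR with qR | qR
    · -- qR.f
      have hpos : 0 < q1 - 2 * w1 := by
        by_contra hc
        push Not at hc
        have := mul_nonpos_of_nonneg_of_nonpos hbβ hc
        linarith
      have hA : 2 * β * w1 < q1 / 2 - Q := by
        have h4 := mul_lt_mul_of_pos_right hI (show (0 : ℝ) < 1 - w1 by linarith)
        have h5 := mul_lt_mul_of_pos_right hII hpos
        have e : (β + b) * (q1 - 2 * w1) * (1 - w1) =
          β * (q1 - 2 * w1) * (1 - w1) + b * (1 - w1) * (q1 - 2 * w1) := by ring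
        have e2 : β * (q1 - 2 * w1) * (1 - w1) + (1 / 2 + β * w1) * (q1 - 2 * w1) =
          (Q + β * q1) - Q + q1 / 2 - 2 * β * w1 - w1 := by ring
        rw [hq2] at e2
        linarith
      have hq12 : 1 / 2 < q1 := by
        have h4 : α * Q ≤ 1 * Q := mul_le_mul_of_nonneg_right hα1.le hQ0.le
        have h5 : 0 ≤ 2 * β * w1 := by
          have e : 2 * β * w1 = 2 * (β * w1) := by ring
          rw [e]; have := mul_nonneg hβ0 hw0; linarith
        linarith
      have hB : (q1 - 1 / 2) * W < w1 * Q := by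
        have h4 := mul_lt_mul_of_pos_right qR hW0
        have e : ((1 - q1) + a * Q) * W = (1 - q1) * W + (a * W) * Q := by ring
        rw [← hw1] at e
        have e2 : (q1 - 1 / 2) * W = 1 / 2 * W - (1 - q1) * W := by ring
        linarith
      have hC : (q1 - 1 / 2) * (1 / 2 - β * w1) ≤ (q1 - 1 / 2) * W :=
        mul_le_mul_of_nonneg_left (by linarith) (by linarith)
      have hE : (q1 - 1 / 2) / 2 < w1 * (1 - β / 2) := by
        have e : (q1 - 1 / 2) * (1 / 2 - β * w1) =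
          (q1 - 1 / 2) / 2 - w1 * (Q + β * q1) + w1 * Q + β * w1 / 2 := by ring
        rw [hq2] at e
        have e2 : w1 * (1 - β / 2) = w1 - β * w1 / 2 := by ring
        linarith
      have hF : β * (q1 - 1 / 2) ≤ (q1 / 2 - 1 + β * q1) * (1 - β / 2) := by
        have h4 := mul_le_mul_of_nonneg_left hE.le (show (0 : ℝ) ≤ 2 * β by linarith)
        have h5 := mul_le_mul_of_nonneg_right hA.le (show (0 : ℝ) ≤ 1 - β / 2 by linarith)
        have e : 2 * β * (w1 * (1 - β / 2)) = 2 * β * w1 * (1 - β / 2) := by ring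
        have e2 : 2 * β * ((q1 - 1 / 2) / 2) = β * (q1 - 1 / 2) := by ring
        have e3 : q1 / 2 - Q = q1 / 2 - 1 + β * q1 := by linarith
        rw [e3] at h5
        linarith
      -- 1 - β ≤ q1 (1/2 - β/4 - β²/2)
      have hG : 1 - β ≤ q1 * (1 / 2 - β / 4 - β ^ 2 / 2) := by
        have e : q1 * (1 / 2 - β / 4 - β ^ 2 / 2) - (1 - β) =
          (q1 / 2 - 1 + β * q1) * (1 - β / 2) - β * (q1 - 1 / 2) := by ring
        linarith
      by_cases hs : 0 ≤ 1 / 2 - β / 4 - β ^ 2 / 2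
      · have : q1 * (1 / 2 - β / 4 - β ^ 2 / 2) ≤ 1 * (1 / 2 - β / 4 - β ^ 2 / 2) :=
          mul_le_mul_of_nonneg_right hq11 hs
        nlinarith [sq_nonneg (β - 3 / 4)]
      · push Not at hs
        have : q1 * (1 / 2 - β / 4 - β ^ 2 / 2) ≤ 0 :=
          mul_nonpos_of_nonneg_of_nonpos hq0.le hs.le
        linarith
    · -- qR.g
      have h4 : (β + b) * q1 < 1 / 2 + b := by
        have e : (β + b) * q1 = (Q + β * q1) - Q + b - b * (1 - q1) := by ring
        rw [hq2] at e
        linarith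
      have h5 : b - 1 / 2 < (β + b) * w1 := by
        have e : (β + b) * w1 = β * w1 + b - b * (1 - w1) := by ring
        linarith
      have e : (β + b) * (q1 - 2 * w1) = (β + b) * q1 - 2 * ((β + b) * w1) := by ring
      have h6 : 0 ≤ (β + b) * w1 := mul_nonneg hbβ hw0
      linarith

/-- case `pB.g`, `qp.g`, `wL.f`, `wT.f` -/
theorem leaf4ff {s t p1 P q1 Q w1 W α β : ℝ}
    (hα0 : 0 ≤ α) (hα1 : α < 1) (hβ0 : 0 ≤ β) (hβ1 : β < 1)
    (hq1 : q1 + α * Q = 1) (hq2 : Q + β * q1 = 1) (hsq : s ≤ q1)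
    (pB : 1 / 2 < (P + t) + β * (p1 - s)) (qp : 1 / 2 < (Q - P) + β * (q1 - p1))
    (wL : 1 / 2 < w1 + α * W)
    (wT : 1 / 2 < (s - w1) + α * (1 - t - W)) : False := by
  have hD : 0 < 1 - α * β := by nlinarith
  have ht : β * s < t := by
    have e : β * (q1 - p1) = β * q1 - β * p1 := by ring
    have e2 : β * (p1 - s) = β * p1 - β * s := by ring
    linarith
  have hqD : q1 * (1 - α * β) = 1 - α := by linear_combination hq1 - α * hq2
  have h1 : s * (1 - α * β) ≤ q1 * (1 - α * β) := mul_le_mul_of_nonneg_right hsq hD.le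
  have h2 : α * (β * s) ≤ α * t := mul_le_mul_of_nonneg_left ht.le hα0
  have e : α * (1 - t - W) = α - α * t - α * W := by ring
  have e2 : s * (1 - α * β) = s - α * (β * s) := by ring
  linarith

/-- case `pB.g`, `qp.g`, `wL.g`, `wT.g` -/
theorem leaf4gg {s t p1 P q1 Q w1 W β : ℝ}
    (hq2 : Q + β * q1 = 1)
    (pB : 1 / 2 < (P + t) + β * (p1 - s)) (qp : 1 / 2 < (Q - P) + β * (q1 - p1))
    (wL : 1 / 2 < W + β * w1)
    (wT : 1 / 2 < (1 - t - W) + β * (s - w1)) : False := by
  have ht : β * s < t := by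
    have e : β * (q1 - p1) = β * q1 - β * p1 := by ring
    have e2 : β * (p1 - s) = β * p1 - β * s := by ring
    linarith
  have e : β * (s - w1) = β * s - β * w1 := by ring
  linarith

end Pool.Agent.Helper93
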