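import Mathlib
import Pool.Agent.Helper93.SevenAlg
import Pool.Agent.Helper93.SevenAlg2

set_option autoImplicit false
set_option linter.unusedVariables false

namespace Pool.Agent.Helper93

theorem alg_main {s t p1 P q1 Q w1 W α β a b : ℝ}
    (hα0 : 0 ≤ α) (hα1 : α < 1) (hβ0 : 0 ≤ β) (hβ1 : β < 1)
    (ha0 : 0 ≤ a) (ha1 : a < 1) (hb0 : 0 ≤ b) (hb1 : b < 1)
    (hq1 : q1 + α * Q = 1) (hq2 : Q + β * q1 = 1) (hw1 : w1 = a * W) (hw2 : W + b * (1 - w1) = 1)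
    (hw0 : 0 ≤ w1) (hws : w1 ≤ s) (hsp : s ≤ p1) (hpq : p1 ≤ q1) (hq11 : q1 ≤ 1) (hq0 : 0 < q1)
    (hw11 : w1 < 1) (hP0 : 0 ≤ P)
    (hst : s + t < 1) (hW0 : 0 < W) (hQ0 : 0 < Q)
    (BL : 1 / 2 < s + a * t ∨ 1 / 2 < t + b * s)
    (pB : 1 / 2 < (p1 - s) + α * (P + t) ∨ 1 / 2 < (P + t) + β * (p1 - s))
    (pR : 1 / 2 < (1 - p1) + a * P ∨ 1 / 2 < P + b * (1 - p1))
    (qR : 1 / 2 < (1 - q1) + a * Q ∨ 1 / 2 < Q + b * (1 - q1))
    (qT : 1 / 2 < (q1 - s) + a * (1 - t - Q) ∨ 1 / 2 < (1 - t - Q) + b * (q1 - s))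
    (qp : 1 / 2 < (q1 - p1) + α * (Q - P) ∨ 1 / 2 < (Q - P) + β * (q1 - p1))
    (wL : 1 / 2 < w1 + α * W ∨ 1 / 2 < W + β * w1)
    (wT : 1 / 2 < (s - w1) + α * (1 - t - W) ∨ 1 / 2 < (1 - t - W) + β * (s - w1))
    (wp : 1 / 2 < (p1 - w1) + a * (W - P) ∨ 1 / 2 < (W - P) + b * (p1 - w1)) : False := by
  rcases pB with pB | pB
  · rcases qp with qp | qp
    · exact leaf1 hα0 hα1 hβ0 hβ1 hq1 hw0 hws pB qp wL wT
    · exact leaf2 hα0 hα1 hβ0 hβ1 ha0 hb0 hb1 hq1 hq2 hw1 hw2 hw0 hws hpq hq0 hq11 hW0 hQ0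
        pB qp BL pR wL wT
  · rcases qp with qp | qp
    · rcases aux_w hα0 hα1 hβ0 hβ1 hw0 hws wL wT with ⟨wL, wT⟩ | key
      · rcases wp with wp | wp
        · exfalso
          have h1 : p1 + α * P < 1 / 2 := by
            have e : α * (Q - P) = α * Q - α * P := by ring
            linarith
          have h2 : 0 ≤ α * P := mul_nonneg hα0 hP0
          have h3 : 0 ≤ a * P := mul_nonneg ha0 hP0
          have e : a * (W - P) = a * W - a * P := by ring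
          linarith
        · rcases qR with qR | qR
          · exact leaf3f hα0 hα1 hβ0 hβ1 ha0 hb0 hb1 hq1 hq2 hw1 hw2 hw0 pB qp wL wT wp qR
          · exact leaf3g hα0 hα1 hβ0 hβ1 hb0 hb1 hq1 hq2 hw2 hw0 pB qp wL wT wp qR
      · exact leaf3a hα0 hα1 hβ0 hβ1 hq1 hsp pB qp key
    · have hsq : s ≤ q1 := hsp.trans hpq
      rcases wL with wL | wL <;> rcases wT with wT | wT
      · exact leaf4ff hα0 hα1 hβ0 hβ1 hq1 hq2 hsq pB qp wL wT
      · exact leaf4fg hα0 hα1 hβ0 hβ1 ha0 ha1 hb0 hb1 hq1 hq2 hw2 hw0 hws hsq hw11 pB qp wL wT qT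
      · exact leaf4gf hα0 hα1 hβ0 hβ1 ha0 ha1 hb0 hb1 hq1 hq2 hw1 hw2 hw0 hws hsq hw11 hq11 hq0
          hst hW0 hQ0 pB qp wL wT qT qR
      · exact leaf4gg hq2 pB qp wL wT

/-- the properties of a norm on the plane with `‖e₁‖, ‖e₂‖ ≤ 1` -/
structure Nm (n : ℝ → ℝ → ℝ) : Prop where
  add : ∀ x y x' y', n (x + x') (y + y') ≤ n x y + n x' y'
  smul : ∀ c x y, 0 ≤ c → n (c * x) (c * y) ≤ c * n x y
  neg : ∀ x y, n (-x) (-y) = n x y
  e1 : n 1 0 ≤ 1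
  e2 : n 0 1 ≤ 1

theorem Nm.swap {n : ℝ → ℝ → ℝ} (h : Nm n) : Nm (fun x y => n y x) :=
  ⟨fun x y x' y' => h.add y x y' x', fun c x y hc => h.smul c y x hc, fun x y => h.neg y x,
    h.e2, h.e1⟩

theorem Nm.flip {n : ℝ → ℝ → ℝ} (h : Nm n) : Nm (fun x y => n x (-y)) := by
  refine ⟨fun x y x' y' => ?_, fun c x y hc => ?_, fun x y => ?_, ?_, ?_⟩
  · have := h.add x (-y) x' (-y'); rwa [← neg_add] at this
  · have := h.smul c x (-y) hc; rwa [mul_neg] at this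
  · exact h.neg x (-y)
  · simpa using h.e1
  · have := h.neg 0 1
    rw [neg_zero] at this
    show n 0 (-1) ≤ 1
    rw [this]; exact h.e2

theorem Nm.l1 {n : ℝ → ℝ → ℝ} (h : Nm n) {x y : ℝ} (hx : 0 ≤ x) (hy : 0 ≤ y) : n x y ≤ x + y := by
  have h1 := h.add (x * 1) (x * 0) (y * 0) (y * 1)
  have h2 := h.smul x 1 0 hx
  have h3 := h.smul y 0 1 hy
  have h4 := mul_le_mul_of_nonneg_left h.e1 hx
  have h5 := mul_le_mul_of_nonneg_left h.e2 hy
  have e1 : x * 1 + y * 0 = x := by ring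
  have e2 : x * 0 + y * 1 = y := by ring
  rw [e1, e2] at h1
  linarith

/-- the key estimate: with `S` in the unit ball -/
theorem Nm.or {n : ℝ → ℝ → ℝ} (h : Nm n) {S1 S2 α β x y : ℝ} (hS1 : 0 < S1) (hS2 : 0 < S2)
    (hS : n S1 S2 ≤ 1) (hα : S1 + α * S2 = 1) (hβ : S2 + β * S1 = 1) (hx : 0 ≤ x) (hy : 0 ≤ y)
    (hn : 1 / 2 < n x y) : 1 / 2 < x + α * y ∨ 1 / 2 < y + β * x := by
  by_cases hc : y * S1 ≤ x * S2
  · left
    -- (x,y) = (y/S2) S + (x - y S1 / S2) e1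
    have h1 := h.add (y / S2 * S1) (y / S2 * S2) ((x - y / S2 * S1) * 1) ((x - y / S2 * S1) * 0)
    have hd : 0 ≤ y / S2 := div_nonneg hy hS2.le
    have hd2 : 0 ≤ x - y / S2 * S1 := by
      have : y / S2 * S1 ≤ x := by
        rw [div_mul_eq_mul_div, div_le_iff₀ hS2]; exact hc
      linarith
    have h2 := h.smul (y / S2) S1 S2 hd
    have h3 := h.smul (x - y / S2 * S1) 1 0 hd2
    have h4 := mul_le_mul_of_nonneg_left hS hd
    have h5 := mul_le_mul_of_nonneg_left h.e1 hd2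
    have e1 : y / S2 * S1 + (x - y / S2 * S1) * 1 = x := by ring
    have e2 : y / S2 * S2 + (x - y / S2 * S1) * 0 = y := by field_simp; ring
    rw [e1, e2] at h1
    have e3 : x + α * y = y / S2 + (x - y / S2 * S1) := by
      have : α * S2 = 1 - S1 := by linarith
      have h6 : y / S2 * (α * S2) = α * y := by field_simp
      rw [this] at h6
      linarith
    linarith
  · right
    push Not at hc
    have h1 := h.add (x / S1 * S1) (x / S1 * S2) ((y - x / S1 * S2) * 0) ((y - x / S1 * S2) * 1)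
    have hd : 0 ≤ x / S1 := div_nonneg hx hS1.le
    have hd2 : 0 ≤ y - x / S1 * S2 := by
      have : x / S1 * S2 ≤ y := by
        rw [div_mul_eq_mul_div, div_le_iff₀ hS1]; exact hc.le
      linarith
    have h2 := h.smul (x / S1) S1 S2 hd
    have h3 := h.smul (y - x / S1 * S2) 0 1 hd2
    have h4 := mul_le_mul_of_nonneg_left hS hd
    have h5 := mul_le_mul_of_nonneg_left h.e2 hd2
    have e1 : x / S1 * S1 + (y - x / S1 * S2) * 0 = x := by field_simp; ring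
    have e2 : x / S1 * S2 + (y - x / S1 * S2) * 1 = y := by ring
    rw [e1, e2] at h1
    have e3 : y + β * x = x / S1 + (y - x / S1 * S2) := by
      have : β * S1 = 1 - S2 := by linarith
      have h6 : x / S1 * (β * S1) = β * x := by field_simp
      rw [this] at h6
      linarith
    linarith

/-- three steps with nonnegative coordinates have a sum outside the ball -/
theorem Nm.three {n : ℝ → ℝ → ℝ} (h : Nm n) {x1 y1 x2 y2 x3 y3 : ℝ}
    (hx1 : 0 ≤ x1) (hy1 : 0 ≤ y1) (hx2 : 0 ≤ x2) (hy2 : 0 ≤ y2) (hx3 : 0 ≤ x3) (hy3 : 0 ≤ y3)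
    (hX : x1 + x2 + x3 ≤ 1) (hY : y1 + y2 + y3 ≤ 1)
    (h1 : 1 / 2 < n x1 y1) (h2 : 1 / 2 < n x2 y2) (h3 : 1 / 2 < n x3 y3)
    (hS : n (x1 + x2 + x3) (y1 + y2 + y3) ≤ 1) : False := by
  rcases eq_or_lt_of_le (show 0 ≤ x1 + x2 + x3 by linarith) with hz | hz
  · have a1 := h.l1 hx1 hy1
    have a2 := h.l1 hx2 hy2
    have a3 := h.l1 hx3 hy3
    linarith
  rcases eq_or_lt_of_le (show 0 ≤ y1 + y2 + y3 by linarith) with hw | hw
  · have a1 := h.l1 hx1 hy1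
    have a2 := h.l1 hx2 hy2
    have a3 := h.l1 hx3 hy3
    linarith
  set S1 := x1 + x2 + x3 with hS1
  set S2 := y1 + y2 + y3 with hS2
  have hα : S1 + (1 - S1) / S2 * S2 = 1 := by field_simp; ring
  have hβ : S2 + (1 - S2) / S1 * S1 = 1 := by field_simp; ring
  have hα0 : 0 ≤ (1 - S1) / S2 := div_nonneg (by linarith) hw.le
  have hβ0 : 0 ≤ (1 - S2) / S1 := div_nonneg (by linarith) hz.le
  generalize (1 - S1) / S2 = α at *
  generalize (1 - S2) / S1 = β at *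
  have b1 := h.or hz hw hS hα hβ hx1 hy1 h1
  have b2 := h.or hz hw hS hα hβ hx2 hy2 h2
  have b3 := h.or hz hw hS hα hβ hx3 hy3 h3
  have e1 : (x1 + α * y1) + (x2 + α * y2) + (x3 + α * y3) = 1 := by
    rw [← hα, hS1, hS2]; ring
  have e2 : (y1 + β * x1) + (y2 + β * x2) + (y3 + β * x3) = 1 := by
    rw [← hβ, hS1, hS2]; ring
  have c1 : 0 ≤ α * y1 := mul_nonneg hα0 hy1
  have c2 : 0 ≤ α * y2 := mul_nonneg hα0 hy2
  have c3 : 0 ≤ α * y3 := mul_nonneg hα0 hy3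
  have d1 : 0 ≤ β * x1 := mul_nonneg hβ0 hx1
  have d2 : 0 ≤ β * x2 := mul_nonneg hβ0 hx2
  have d3 : 0 ≤ β * x3 := mul_nonneg hβ0 hx3
  rcases b1 with b1 | b1 <;> rcases b2 with b2 | b2 <;> rcases b3 with b3 | b3 <;> linarith

end Pool.Agent.Helper93
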