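import Mathlib
import Pool.Agent.Helper93.SevenCore

set_option autoImplicit false
set_option linter.unusedVariables false

namespace Pool.Agent.Helper93

/-- seven points in coordinates adapted to a parallelogram of maximal area -/
structure Sys (n : ℝ → ℝ → ℝ) (X Y : Fin 7 → ℝ) (L R B T : Fin 7) : Prop where
  nm : Nm n
  D : ∀ i j, n (X i - X j) (Y i - Y j) ≤ 1
  G : ∀ i j, i ≠ j → 1 / 2 < n (X i - X j) (Y i - Y j)
  X0 : ∀ i, 0 ≤ X i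
  X1 : ∀ i, X i ≤ 1
  Y0 : ∀ i, 0 ≤ Y i
  Y1 : ∀ i, Y i ≤ 1
  XL : X L = 0
  XR : X R = 1
  YLR : Y L = Y R
  YB : Y B = 0
  YT : Y T = 1
  XBT : X B = X T

variable {n : ℝ → ℝ → ℝ} {X Y : Fin 7 → ℝ} {L R B T : Fin 7}

theorem Sys.swap (S : Sys n X Y L R B T) : Sys (fun x y => n y x) Y X B T L R :=
  ⟨S.nm.swap, fun i j => S.D i j, fun i j h => S.G i j h, S.Y0, S.Y1, S.X0, S.X1, S.YB, S.YT,
    S.XBT, S.XL, S.XR, S.YLR⟩

theorem Sys.flipY (S : Sys n X Y L R B T) :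
    Sys (fun x y => n x (-y)) X (fun i => 1 - Y i) L R T B := by
  have e : ∀ i j, -((1 - Y i) - (1 - Y j)) = Y i - Y j := fun i j => by ring
  refine ⟨S.nm.flip, fun i j => ?_, fun i j h => ?_, S.X0, S.X1, fun i => ?_, fun i => ?_,
    S.XL, S.XR, ?_, ?_, ?_, S.XBT.symm⟩
  · show n (X i - X j) (-((1 - Y i) - (1 - Y j))) ≤ 1
    rw [e]; exact S.D i j
  · show 1 / 2 < n (X i - X j) (-((1 - Y i) - (1 - Y j)))
    rw [e]; exact S.G i j h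
  · show 0 ≤ 1 - Y i
    linarith [S.Y1 i]
  · show 1 - Y i ≤ 1
    linarith [S.Y0 i]
  · show 1 - Y L = 1 - Y R
    rw [S.YLR]
  · show 1 - Y T = 0
    rw [S.YT]; ring
  · show 1 - Y B = 1
    rw [S.YB]; ring

theorem Sys.flipX (S : Sys n X Y L R B T) :
    Sys (fun x y => n x (-y)) (fun i => 1 - X i) Y R L B T := by
  have e : ∀ i j, n ((1 - X i) - (1 - X j)) (-(Y i - Y j)) = n (X i - X j) (Y i - Y j) := by
    intro i j
    have e1 : (1 - X i) - (1 - X j) = -(X i - X j) := by ring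
    rw [e1, S.nm.neg]
  refine ⟨S.nm.flip, fun i j => ?_, fun i j h => ?_, fun i => ?_, fun i => ?_, S.Y0, S.Y1,
    ?_, ?_, S.YLR.symm, S.YB, S.YT, ?_⟩
  · show n ((1 - X i) - (1 - X j)) (-(Y i - Y j)) ≤ 1
    rw [e]; exact S.D i j
  · show 1 / 2 < n ((1 - X i) - (1 - X j)) (-(Y i - Y j))
    rw [e]; exact S.G i j h
  · show 0 ≤ 1 - X i
    linarith [S.X1 i]
  · show 1 - X i ≤ 1
    linarith [S.X0 i]
  · show 1 - X R = 0
    rw [S.XR]; ring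
  · show 1 - X L = 1
    rw [S.XL]; ring
  · show 1 - X B = 1 - X T
    rw [S.XBT]

theorem Sys.chain4 (S : Sys n X Y L R B T) {i j k m : Fin 7} (hij : i ≠ j) (hjk : j ≠ k)
    (hkm : k ≠ m) (x1 : X i ≤ X j) (x2 : X j ≤ X k) (x3 : X k ≤ X m)
    (y1 : Y i ≤ Y j) (y2 : Y j ≤ Y k) (y3 : Y k ≤ Y m) : False := by
  have e1 : (X j - X i) + (X k - X j) + (X m - X k) = X m - X i := by ring
  have e2 : (Y j - Y i) + (Y k - Y j) + (Y m - Y k) = Y m - Y i := by ring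
  refine S.nm.three (x1 := X j - X i) (y1 := Y j - Y i) (x2 := X k - X j) (y2 := Y k - Y j)
    (x3 := X m - X k) (y3 := Y m - Y k) (by linarith) (by linarith) (by linarith) (by linarith)
    (by linarith) (by linarith) ?_ ?_ (S.G j i hij.symm) (S.G k j hjk.symm) (S.G m k hkm.symm) ?_
  · rw [e1]; linarith [S.X1 m, S.X0 i]
  · rw [e2]; linarith [S.Y1 m, S.Y0 i]
  · rw [e1, e2]; exact S.D m i

theorem Sys.chain4' (S : Sys n X Y L R B T) {i j k m : Fin 7} (hij : i ≠ j) (hjk : j ≠ k)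
    (hkm : k ≠ m) (x1 : X i ≤ X j) (x2 : X j ≤ X k) (x3 : X k ≤ X m)
    (y1 : Y j ≤ Y i) (y2 : Y k ≤ Y j) (y3 : Y m ≤ Y k) : False :=
  S.flipY.chain4 hij hjk hkm x1 x2 x3 (by show 1 - Y i ≤ 1 - Y j; linarith)
    (by show 1 - Y j ≤ 1 - Y k; linarith) (by show 1 - Y k ≤ 1 - Y m; linarith)

/-- `n ≤ ℓ¹` for two points in increasing position -/
theorem Sys.inc (S : Sys n X Y L R B T) {i j : Fin 7} (h : i ≠ j) (hx : X i ≤ X j)
    (hy : Y i ≤ Y j) : 1 / 2 < (X j - X i) + (Y j - Y i) :=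
  lt_of_lt_of_le (S.G j i h.symm) (S.nm.l1 (by linarith) (by linarith))

/-- `n ≤ ℓ¹` for two points in decreasing position -/
theorem Sys.dec (S : Sys n X Y L R B T) {i j : Fin 7} (h : i ≠ j) (hx : X i ≤ X j)
    (hy : Y j ≤ Y i) : 1 / 2 < (X j - X i) + (Y i - Y j) := by
  have := S.flipY.inc h hx (show 1 - Y i ≤ 1 - Y j by linarith)
  have e : (1 - Y j) - (1 - Y i) = Y i - Y j := by ring
  linarith

theorem Sys.core (S : Sys n X Y L R B T) {p q w : Fin 7} (hpq : p ≠ q) (hwp : w ≠ p)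
    (hpB : p ≠ B) (hpR : p ≠ R) (hqR : q ≠ R) (hqT : q ≠ T) (hwL : w ≠ L) (hwT : w ≠ T)
    (hpL : p ≠ L)
    (xp : X B ≤ X p) (yp : Y L ≤ Y p) (xpq : X p ≤ X q) (ypq : Y p ≤ Y q)
    (xw : X w ≤ X B) (yw : Y L ≤ Y w) : False := by
  have hXL := S.XL
  have hXR := S.XR
  have hYR := S.YLR
  have hYB := S.YB
  have hYT := S.YT
  have hXT := S.XBT
  -- w is above p
  have hWP : Y p < Y w := by
    by_contra hc
    push Not at hc
    exact S.chain4 (Ne.symm hwL) hwp hpq (by rw [hXL]; exact S.X0 w) (xw.trans xp) xpq yw hc ypq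
  -- sums
  have c1 : 1 < (X q - X L) + (Y q - Y L) := by
    have h1 := S.inc (Ne.symm hpL) (by rw [hXL]; exact S.X0 p) yp
    have h2 := S.inc hpq xpq ypq
    linarith
  have c2 : 1 < (X R - X w) + (Y w - Y R) := by
    have h1 := S.dec hwp (xw.trans xp) hWP.le
    have h2 := S.dec hpR (by rw [hXR]; exact S.X1 p) (by rw [← hYR]; exact yp)
    linarith
  have c3 : X B + Y L < 1 := by
    have h1 := S.dec (Ne.symm hqT) (by rw [← hXT]; exact xp.trans xpq) (by rw [hYT]; exact S.Y1 q)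
    have h2 := S.dec hqR (by rw [hXR]; exact S.X1 q) (by rw [← hYR]; exact yp.trans ypq)
    linarith
  have c4 : Y L < X B := by
    have h1 := S.inc (Ne.symm hwL) (by rw [hXL]; exact S.X0 w) yw
    have h2 := S.inc hwT (by rw [← hXT]; exact xw) (by rw [hYT]; exact S.Y1 w)
    linarith
  have hBL : B ≠ L := by
    intro h
    rw [h, hXL] at c4
    linarith [S.Y0 L]
  -- the numbers
  have ht0 : 0 ≤ Y L := S.Y0 L
  have hw0 : 0 ≤ X w := S.X0 w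
  have hq11 : X q ≤ 1 := S.X1 q
  have hQ1 : Y q - Y L ≤ 1 := by linarith [S.Y1 q]
  have hW1 : Y w - Y L ≤ 1 := by linarith [S.Y1 w]
  have hq0 : 0 < X q := by linarith
  have hQ0 : 0 < Y q - Y L := by linarith
  have hw11 : X w < 1 := by linarith
  have hW0 : 0 < Y w - Y L := by linarith
  have hS : n (X q) (Y q - Y L) ≤ 1 := by
    have := S.D q L
    rwa [hXL, sub_zero] at this
  have hS' : n (1 - X w) (-(Y w - Y L)) ≤ 1 := by
    have := S.D R w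
    rw [hXR, ← hYR] at this
    rwa [neg_sub]
  have hα : X q + (1 - X q) / (Y q - Y L) * (Y q - Y L) = 1 := by field_simp; ring
  have hβ : (Y q - Y L) + (1 - (Y q - Y L)) / X q * X q = 1 := by field_simp; ring
  have hα0 : 0 ≤ (1 - X q) / (Y q - Y L) := div_nonneg (by linarith) hQ0.le
  have hβ0 : 0 ≤ (1 - (Y q - Y L)) / X q := div_nonneg (by linarith) hq0.le
  have hα1 : (1 - X q) / (Y q - Y L) < 1 := by rw [div_lt_one hQ0]; linarith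
  have hβ1 : (1 - (Y q - Y L)) / X q < 1 := by rw [div_lt_one hq0]; linarith
  have hw1p : 0 < 1 - X w := by linarith
  have ha : (1 - X w) + (X w) / (Y w - Y L) * (Y w - Y L) = 1 := by field_simp; ring
  have hb : (Y w - Y L) + (1 - (Y w - Y L)) / (1 - X w) * (1 - X w) = 1 := by field_simp; ring
  have ha0 : 0 ≤ (X w) / (Y w - Y L) := div_nonneg hw0 hW0.le
  have hb0 : 0 ≤ (1 - (Y w - Y L)) / (1 - X w) := div_nonneg (by linarith) hw1p.le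
  have ha1 : (X w) / (Y w - Y L) < 1 := by rw [div_lt_one hW0]; linarith
  have hb1 : (1 - (Y w - Y L)) / (1 - X w) < 1 := by rw [div_lt_one hw1p]; linarith
  generalize (1 - X q) / (Y q - Y L) = α at *
  generalize (1 - (Y q - Y L)) / X q = β at *
  generalize (X w) / (Y w - Y L) = a at *
  generalize (1 - (Y w - Y L)) / (1 - X w) = b at *
  -- increasing pairs
  have I : ∀ i j, i ≠ j → X i ≤ X j → Y i ≤ Y j →
      1 / 2 < (X j - X i) + α * (Y j - Y i) ∨ 1 / 2 < (Y j - Y i) + β * (X j - X i) :=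
    fun i j h hx hy => S.nm.or hq0 hQ0 hS hα hβ (by linarith) (by linarith) (S.G j i h.symm)
  have J : ∀ i j, i ≠ j → X i ≤ X j → Y j ≤ Y i →
      1 / 2 < (X j - X i) + a * (Y i - Y j) ∨ 1 / 2 < (Y i - Y j) + b * (X j - X i) := by
    intro i j h hx hy
    refine S.nm.flip.or hw1p hW0 hS' ha hb (by linarith) (by linarith) ?_
    show 1 / 2 < n (X j - X i) (-(Y i - Y j))
    rw [neg_sub]
    exact S.G j i h.symm
  have hLB := J L B hBL.symm (by rw [hXL]; exact S.X0 B) (by rw [hYB]; exact ht0)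
  have hpB := I B p (Ne.symm hpB) xp (by rw [hYB]; exact S.Y0 p)
  have hpR := J p R hpR (by rw [hXR]; exact S.X1 p) (by rw [← hYR]; exact yp)
  have hqR := J q R hqR (by rw [hXR]; exact S.X1 q) (by rw [← hYR]; exact yp.trans ypq)
  have hqT := J T q (Ne.symm hqT) (by rw [← hXT]; exact xp.trans xpq) (by rw [hYT]; exact S.Y1 q)
  have hqp := I p q hpq xpq ypq
  have hwL := I L w (Ne.symm hwL) (by rw [hXL]; exact S.X0 w) yw
  have hwT := I w T hwT (by rw [← hXT]; exact xw) (by rw [hYT]; exact S.Y1 w)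
  have hwp := J w p hwp (xw.trans xp) hWP.le
  rw [hXL, hYB] at hLB
  rw [hYB] at hpB
  rw [hXR, ← hYR] at hpR hqR
  rw [← hXT, hYT] at hqT hwT
  rw [hXL] at hwL
  simp only [sub_zero] at *
  refine alg_main (s := X B) (t := Y L) (p1 := X p) (P := Y p - Y L) (q1 := X q) (Q := Y q - Y L)
    (w1 := X w) (W := Y w - Y L) (α := α) (β := β) (a := a) (b := b) hα0 hα1 hβ0 hβ1 ha0 ha1
    hb0 hb1 hα hβ (by linarith) hb hw0 xw xp xpq hq11 hq0 hw11 (by linarith) c3 hW0 hQ0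
    ?_ ?_ ?_ ?_ ?_ ?_ ?_ ?_ ?_
  · exact hLB
  · have e : Y p - Y L + Y L = Y p := by ring
    rw [e]; exact hpB
  · exact hpR
  · exact hqR
  · have e : 1 - Y L - (Y q - Y L) = 1 - Y q := by ring
    rw [e]; exact hqT
  · have e : Y q - Y L - (Y p - Y L) = Y q - Y p := by ring
    rw [e]; exact hqp
  · exact hwL
  · have e : 1 - Y L - (Y w - Y L) = 1 - Y w := by ring
    rw [e]; exact hwT
  · have e : Y w - Y L - (Y p - Y L) = Y w - Y p := by ring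
    rw [e]; exact hwp

/-- two extra points in increasing position in the upper right quadrant, and a third one -/
theorem Sys.two' (S : Sys n X Y L R B T) {p q k : Fin 7} (hpq : p ≠ q) (hpk : p ≠ k) (hqk : q ≠ k)
    (hp : p ≠ L ∧ p ≠ R ∧ p ≠ B ∧ p ≠ T) (hq : q ≠ L ∧ q ≠ R ∧ q ≠ B ∧ q ≠ T)
    (hk : k ≠ L ∧ k ≠ R ∧ k ≠ B ∧ k ≠ T)
    (xp : X B ≤ X p) (yp : Y L ≤ Y p) (xpq : X p ≤ X q) (ypq : Y p ≤ Y q) : False := by
  have hXL := S.XL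
  have hXR := S.XR
  have hYR := S.YLR
  have hYB := S.YB
  have hYT := S.YT
  have hXT := S.XBT
  have dc : ∀ i j : Fin 7, i ≠ j → i ≠ T → j ≠ R → X B ≤ X i → Y L ≤ Y j → X i ≤ X j →
      Y j ≤ Y i → False := by
    intro i j h hiT hjR xi yj xij yij
    exact S.chain4' (i := T) (j := i) (k := j) (m := R) (Ne.symm hiT) h hjR (by rw [← hXT]; exact xi)
      xij (by rw [hXR]; exact S.X1 j) (by rw [hYT]; exact S.Y1 i) yij (by rw [← hYR]; exact yj)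
  rcases le_total (X k) (X B) with xk | xk <;> rcases le_total (Y k) (Y L) with yk | yk
  · -- opposite
    have h1 := S.dec (Ne.symm hq.2.2.2) (by rw [← hXT]; exact xp.trans xpq)
      (by rw [hYT]; exact S.Y1 q)
    have h2 := S.dec hq.2.1 (by rw [hXR]; exact S.X1 q) (by rw [← hYR]; exact yp.trans ypq)
    have h3 := S.dec (Ne.symm hk.1) (by rw [hXL]; exact S.X0 k) yk
    have h4 := S.dec hk.2.2.1 xk (by rw [hYB]; exact S.Y0 k)
    linarith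
  · exact S.core hpq hpk.symm hp.2.2.1 hp.2.1 hq.2.1 hq.2.2.2 hk.1 hk.2.2.2 hp.1 xp yp xpq ypq xk yk
  · exact S.swap.core hpq hpk.symm hp.1 hp.2.2.2 hq.2.2.2 hq.2.1 hk.2.2.1 hk.2.1 hp.2.2.1
      yp xp ypq xpq yk xk
  · -- same quadrant: a chain of three
    have xL : ∀ i, X L ≤ X i := fun i => by rw [hXL]; exact S.X0 i
    rcases le_total (X k) (X p) with a1 | a1
    · rcases le_total (Y k) (Y p) with a2 | a2
      · exact S.chain4 (Ne.symm hk.1) hpk.symm hpq (xL k) a1 xpq yk a2 ypq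
      · exact dc k p hpk.symm hk.2.2.2 hp.2.1 xk yp a1 a2
    · rcases le_total (Y k) (Y p) with a2 | a2
      · exact dc p k hpk hp.2.2.2 hk.2.1 xp yk a1 a2
      · rcases le_total (X k) (X q) with a3 | a3
        · rcases le_total (Y k) (Y q) with a4 | a4
          · exact S.chain4 (Ne.symm hp.1) hpk hqk.symm (xL p) a1 a3 yp a2 a4
          · exact dc k q hqk.symm hk.2.2.2 hq.2.1 xk (yp.trans ypq) a3 a4
        · rcases le_total (Y k) (Y q) with a4 | a4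
          · exact dc q k hqk hq.2.2.2 hk.2.1 (xp.trans xpq) yk a3 a4
          · exact S.chain4 (Ne.symm hp.1) hpq hqk (xL p) xpq a3 yp ypq a4

/-- two extra points in the upper right quadrant -/
theorem Sys.two (S : Sys n X Y L R B T) {p q k : Fin 7} (hpq : p ≠ q) (hpk : p ≠ k) (hqk : q ≠ k)
    (hp : p ≠ L ∧ p ≠ R ∧ p ≠ B ∧ p ≠ T) (hq : q ≠ L ∧ q ≠ R ∧ q ≠ B ∧ q ≠ T)
    (hk : k ≠ L ∧ k ≠ R ∧ k ≠ B ∧ k ≠ T)
    (xp : X B ≤ X p) (yp : Y L ≤ Y p) (xq : X B ≤ X q) (yq : Y L ≤ Y q) : False := by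
  have hXR := S.XR
  have hYR := S.YLR
  have hYT := S.YT
  have hXT := S.XBT
  rcases le_total (X p) (X q) with a1 | a1 <;> rcases le_total (Y p) (Y q) with a2 | a2
  · exact S.two' hpq hpk hqk hp hq hk xp yp a1 a2
  · exact S.chain4' (i := T) (j := p) (k := q) (m := R) (Ne.symm hp.2.2.2) hpq hq.2.1
      (by rw [← hXT]; exact xp) a1 (by rw [hXR]; exact S.X1 q) (by rw [hYT]; exact S.Y1 p) a2
      (by rw [← hYR]; exact yq)
  · exact S.chain4' (i := T) (j := q) (k := p) (m := R) (Ne.symm hq.2.2.2) hpq.symm hp.2.1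
      (by rw [← hXT]; exact xq) a1 (by rw [hXR]; exact S.X1 p) (by rw [hYT]; exact S.Y1 q) a2
      (by rw [← hYR]; exact yp)
  · exact S.two' hpq.symm hqk hpk hq hp hk xq yq a1 a2

/-- two extra points in the same quadrant -/
theorem Sys.same (S : Sys n X Y L R B T) {p q k : Fin 7} (hpq : p ≠ q) (hpk : p ≠ k) (hqk : q ≠ k)
    (hp : p ≠ L ∧ p ≠ R ∧ p ≠ B ∧ p ≠ T) (hq : q ≠ L ∧ q ≠ R ∧ q ≠ B ∧ q ≠ T)
    (hk : k ≠ L ∧ k ≠ R ∧ k ≠ B ∧ k ≠ T)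
    (hx : (X B ≤ X p ∧ X B ≤ X q) ∨ (X p ≤ X B ∧ X q ≤ X B))
    (hy : (Y L ≤ Y p ∧ Y L ≤ Y q) ∨ (Y p ≤ Y L ∧ Y q ≤ Y L)) : False := by
  have hYR := S.YLR
  have hXT := S.XBT
  rcases hx with ⟨xp, xq⟩ | ⟨xp, xq⟩ <;> rcases hy with ⟨yp, yq⟩ | ⟨yp, yq⟩
  · exact S.two hpq hpk hqk hp hq hk xp yp xq yq
  · exact S.flipY.two hpq hpk hqk ⟨hp.1, hp.2.1, hp.2.2.2, hp.2.2.1⟩
      ⟨hq.1, hq.2.1, hq.2.2.2, hq.2.2.1⟩ ⟨hk.1, hk.2.1, hk.2.2.2, hk.2.2.1⟩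
      (by rw [← hXT]; exact xp) (by show 1 - Y L ≤ 1 - Y p; linarith)
      (by rw [← hXT]; exact xq) (by show 1 - Y L ≤ 1 - Y q; linarith)
  · exact S.flipX.two hpq hpk hqk ⟨hp.2.1, hp.1, hp.2.2.1, hp.2.2.2⟩
      ⟨hq.2.1, hq.1, hq.2.2.1, hq.2.2.2⟩ ⟨hk.2.1, hk.1, hk.2.2.1, hk.2.2.2⟩
      (by show 1 - X B ≤ 1 - X p; linarith) (by rw [← hYR]; exact yp)
      (by show 1 - X B ≤ 1 - X q; linarith) (by rw [← hYR]; exact yq)
  · exact S.flipX.flipY.two hpq hpk hqk ⟨hp.2.1, hp.1, hp.2.2.2, hp.2.2.1⟩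
      ⟨hq.2.1, hq.1, hq.2.2.2, hq.2.2.1⟩ ⟨hk.2.1, hk.1, hk.2.2.2, hk.2.2.1⟩
      (by show 1 - X T ≤ 1 - X p; rw [← hXT]; linarith)
      (by show 1 - Y R ≤ 1 - Y p; rw [← hYR]; linarith)
      (by show 1 - X T ≤ 1 - X q; rw [← hXT]; linarith)
      (by show 1 - Y R ≤ 1 - Y q; rw [← hYR]; linarith)

theorem Sys.opp' (S : Sys n X Y L R B T) {p q : Fin 7}
    (hp : p ≠ L ∧ p ≠ R ∧ p ≠ B ∧ p ≠ T) (hq : q ≠ L ∧ q ≠ R ∧ q ≠ B ∧ q ≠ T)
    (xp : X B ≤ X p) (yp : Y L ≤ Y p) (xq : X q ≤ X B) (yq : Y q ≤ Y L) : False := by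
  have hXL := S.XL
  have hXR := S.XR
  have hYR := S.YLR
  have hYB := S.YB
  have hYT := S.YT
  have hXT := S.XBT
  have h1 := S.dec (Ne.symm hp.2.2.2) (by rw [← hXT]; exact xp) (by rw [hYT]; exact S.Y1 p)
  have h2 := S.dec hp.2.1 (by rw [hXR]; exact S.X1 p) (by rw [← hYR]; exact yp)
  have h3 := S.dec (Ne.symm hq.1) (by rw [hXL]; exact S.X0 q) yq
  have h4 := S.dec hq.2.2.1 xq (by rw [hYB]; exact S.Y0 q)
  linarith

/-- two extra points in opposite quadrants -/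
theorem Sys.opp (S : Sys n X Y L R B T) {p q : Fin 7}
    (hp : p ≠ L ∧ p ≠ R ∧ p ≠ B ∧ p ≠ T) (hq : q ≠ L ∧ q ≠ R ∧ q ≠ B ∧ q ≠ T)
    (hx : (X B ≤ X p ∧ X q ≤ X B) ∨ (X p ≤ X B ∧ X B ≤ X q))
    (hy : (Y L ≤ Y p ∧ Y q ≤ Y L) ∨ (Y p ≤ Y L ∧ Y L ≤ Y q)) : False := by
  have hYR := S.YLR
  rcases hx with ⟨xp, xq⟩ | ⟨xp, xq⟩ <;> rcases hy with ⟨yp, yq⟩ | ⟨yp, yq⟩
  · exact S.opp' hp hq xp yp xq yq
  · exact S.flipX.opp' (p := q) (q := p) ⟨hq.2.1, hq.1, hq.2.2.1, hq.2.2.2⟩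
      ⟨hp.2.1, hp.1, hp.2.2.1, hp.2.2.2⟩
      (by show 1 - X B ≤ 1 - X q; linarith) (by rw [← hYR]; exact yq)
      (by show 1 - X p ≤ 1 - X B; linarith) (by rw [← hYR]; exact yp)
  · exact S.flipX.opp' (p := p) (q := q) ⟨hp.2.1, hp.1, hp.2.2.1, hp.2.2.2⟩
      ⟨hq.2.1, hq.1, hq.2.2.1, hq.2.2.2⟩
      (by show 1 - X B ≤ 1 - X p; linarith) (by rw [← hYR]; exact yp)
      (by show 1 - X q ≤ 1 - X B; linarith) (by rw [← hYR]; exact yq)
  · exact S.opp' hq hp xq yq xp yp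

theorem Sys.false (S : Sys n X Y L R B T) : False := by
  have hc : 2 < (Finset.univ \ {L, R, B, T} : Finset (Fin 7)).card := by
    have h1 : ({L, R, B, T} : Finset (Fin 7)).card ≤ 4 := Finset.card_le_four
    have h2 := Finset.card_sdiff_add_card_eq_card (Finset.subset_univ ({L, R, B, T} : Finset (Fin 7)))
    rw [Finset.card_univ, Fintype.card_fin] at h2
    omega
  obtain ⟨i, hi, j, hj, k, hk, hij, hik, hjk⟩ := Finset.two_lt_card.1 hc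
  have conv : ∀ i : Fin 7, i ∈ (Finset.univ \ {L, R, B, T} : Finset (Fin 7)) →
      i ≠ L ∧ i ≠ R ∧ i ≠ B ∧ i ≠ T := by
    intro i hi
    simpa using hi
  have hi := conv i hi
  have hj := conv j hj
  have hk := conv k hk
  have xi := le_total (X i) (X B)
  have xj := le_total (X j) (X B)
  have xk := le_total (X k) (X B)
  have yi := le_total (Y i) (Y L)
  have yj := le_total (Y j) (Y L)
  have yk := le_total (Y k) (Y L)
  have A1 := S.same hij hik hjk hi hj hk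
  have A2 := S.same hik hij hjk.symm hi hk hj
  have A3 := S.same hjk hij.symm hik.symm hj hk hi
  have B1 := S.opp hi hj
  have B2 := S.opp hi hk
  have B3 := S.opp hj hk
  rcases xi with xi | xi <;> rcases xj with xj | xj <;> rcases xk with xk | xk <;>
  rcases yi with yi | yi <;> rcases yj with yj | yj <;> rcases yk with yk | yk <;>
  first
  | exact A1 (Or.inl ⟨xi, xj⟩) (Or.inl ⟨yi, yj⟩)
  | exact A1 (Or.inl ⟨xi, xj⟩) (Or.inr ⟨yi, yj⟩)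
  | exact A1 (Or.inr ⟨xi, xj⟩) (Or.inl ⟨yi, yj⟩)
  | exact A1 (Or.inr ⟨xi, xj⟩) (Or.inr ⟨yi, yj⟩)
  | exact A2 (Or.inl ⟨xi, xk⟩) (Or.inl ⟨yi, yk⟩)
  | exact A2 (Or.inl ⟨xi, xk⟩) (Or.inr ⟨yi, yk⟩)
  | exact A2 (Or.inr ⟨xi, xk⟩) (Or.inl ⟨yi, yk⟩)
  | exact A2 (Or.inr ⟨xi, xk⟩) (Or.inr ⟨yi, yk⟩)
  | exact A3 (Or.inl ⟨xj, xk⟩) (Or.inl ⟨yj, yk⟩)
  | exact A3 (Or.inl ⟨xj, xk⟩) (Or.inr ⟨yj, yk⟩)
  | exact A3 (Or.inr ⟨xj, xk⟩) (Or.inl ⟨yj, yk⟩)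
  | exact A3 (Or.inr ⟨xj, xk⟩) (Or.inr ⟨yj, yk⟩)
  | exact B1 (Or.inl ⟨xi, xj⟩) (Or.inl ⟨yi, yj⟩)
  | exact B1 (Or.inl ⟨xi, xj⟩) (Or.inr ⟨yi, yj⟩)
  | exact B1 (Or.inr ⟨xi, xj⟩) (Or.inl ⟨yi, yj⟩)
  | exact B1 (Or.inr ⟨xi, xj⟩) (Or.inr ⟨yi, yj⟩)
  | exact B2 (Or.inl ⟨xi, xk⟩) (Or.inl ⟨yi, yk⟩)
  | exact B2 (Or.inl ⟨xi, xk⟩) (Or.inr ⟨yi, yk⟩)
  | exact B2 (Or.inr ⟨xi, xk⟩) (Or.inl ⟨yi, yk⟩)
  | exact B2 (Or.inr ⟨xi, xk⟩) (Or.inr ⟨yi, yk⟩)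
  | exact B3 (Or.inl ⟨xj, xk⟩) (Or.inl ⟨yj, yk⟩)
  | exact B3 (Or.inl ⟨xj, xk⟩) (Or.inr ⟨yj, yk⟩)
  | exact B3 (Or.inr ⟨xj, xk⟩) (Or.inl ⟨yj, yk⟩)
  | exact B3 (Or.inr ⟨xj, xk⟩) (Or.inr ⟨yj, yk⟩)

end Pool.Agent.Helper93
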