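import Mathlib
import Pool.Agent.Helper93.SevenSys

set_option autoImplicit false
set_option linter.unusedVariables false

namespace Pool.Agent.Helper93

section
variable {E : Type} [NormedAddCommGroup E] [NormedSpace ℝ E]

/-- the determinant in a basis -/
noncomputable def dt (b : Module.Basis (Fin 2) ℝ E) (u v : E) : ℝ :=
  b.repr u 0 * b.repr v 1 - b.repr u 1 * b.repr v 0

variable (b : Module.Basis (Fin 2) ℝ E)

theorem dt_add_left (u u' v : E) : dt b (u + u') v = dt b u v + dt b u' v := by
  simp only [dt, map_add, Finsupp.add_apply]; ring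

theorem dt_sub_left (u u' v : E) : dt b (u - u') v = dt b u v - dt b u' v := by
  simp only [dt, map_sub, Finsupp.sub_apply]; ring

theorem dt_sub_right (u v v' : E) : dt b u (v - v') = dt b u v - dt b u v' := by
  simp only [dt, map_sub, Finsupp.sub_apply]; ring

theorem dt_self (u : E) : dt b u u = 0 := by
  simp only [dt]; ring

theorem dt_swap (u v : E) : dt b u v = - dt b v u := by
  simp only [dt]; ring

theorem dt_neg_left (u v : E) : dt b (-u) v = - dt b u v := by
  simp only [dt, map_neg, Finsupp.neg_apply]; ring

/-- Cramer's rule -/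
theorem cramer (u v w : E) : dt b u v • w = dt b w v • u + dt b u w • v := by
  apply b.repr.injective
  ext i
  simp only [map_add, map_smul, Finsupp.add_apply, Finsupp.smul_apply, smul_eq_mul, dt]
  fin_cases i <;> simp <;> ring

end

theorem seven (E : Type) [NormedAddCommGroup E] [NormedSpace ℝ E]
    (hE : Module.finrank ℝ E = 2) (p : Fin 7 → E) (hp : Function.Injective p) :
    ∃ i j k l : Fin 7, k ≠ l ∧ 2 * dist (p k) (p l) ≤ dist (p i) (p j) := by
  by_contra hcon
  push Not at hcon
  haveI : FiniteDimensional ℝ E := Module.finite_of_finrank_pos (by rw [hE]; norm_num)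
  set bs := Module.finBasisOfFinrankEq ℝ E hE with hbs
  obtain ⟨⟨i0, j0⟩, hM⟩ := Finite.exists_max (fun x : Fin 7 × Fin 7 => dist (p x.1) (p x.2))
  set M := dist (p i0) (p j0) with hMdef
  have hM1 : ∀ i j, ‖p i - p j‖ ≤ M := fun i j => by
    rw [← dist_eq_norm]; exact hM (i, j)
  have hM2 : ∀ i j, i ≠ j → M / 2 < ‖p i - p j‖ := fun i j h => by
    rw [← dist_eq_norm]
    have := hcon i0 j0 i j h
    linarith
  have hMpos : 0 < M := by
    have h1 := hM2 0 1 (by decide)
    have h2 := hM1 0 1
    linarith
  obtain ⟨⟨⟨R, L⟩, ⟨T, B⟩⟩, hdet⟩ := Finite.exists_max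
    (fun x : (Fin 7 × Fin 7) × (Fin 7 × Fin 7) => dt bs (p x.1.1 - p x.1.2) (p x.2.1 - p x.2.2))
  set a := p R - p L with ha
  set c := p T - p B with hc
  set d := dt bs a c with hd
  have hdet1 : ∀ i j k l, dt bs (p i - p j) (p k - p l) ≤ d := fun i j k l =>
    hdet ((i, j), (k, l))
  have hdet2 : ∀ i j k l, -d ≤ dt bs (p i - p j) (p k - p l) := fun i j k l => by
    have h1 := hdet1 j i k l
    have h2 : dt bs (p j - p i) (p k - p l) = - dt bs (p i - p j) (p k - p l) := by
      rw [← dt_neg_left, neg_sub]
    linarith
  rcases lt_or_ge 0 d with hdpos | hdneg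
  · -- the main case
    let n : ℝ → ℝ → ℝ := fun x y => ‖x • a + y • c‖ / M
    have hnm : Nm n := by
      refine ⟨fun x y x' y' => ?_, fun r x y hr => ?_, fun x y => ?_, ?_, ?_⟩
      · show ‖(x + x') • a + (y + y') • c‖ / M ≤ ‖x • a + y • c‖ / M + ‖x' • a + y' • c‖ / M
        rw [← add_div]
        apply div_le_div_of_nonneg_right _ hMpos.le
        have e : (x + x') • a + (y + y') • c = (x • a + y • c) + (x' • a + y' • c) := by
          rw [add_smul, add_smul]; abel
        rw [e]; exact norm_add_le _ _
      · show ‖(r * x) • a + (r * y) • c‖ / M ≤ r * (‖x • a + y • c‖ / M)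
        have e : (r * x) • a + (r * y) • c = r • (x • a + y • c) := by
          rw [smul_add, smul_smul, smul_smul]
        rw [e, norm_smul, Real.norm_eq_abs, abs_of_nonneg hr, mul_div_assoc]
      · show ‖(-x) • a + (-y) • c‖ / M = ‖x • a + y • c‖ / M
        have e : (-x) • a + (-y) • c = -(x • a + y • c) := by
          rw [neg_smul, neg_smul]; abel
        rw [e, norm_neg]
      · show ‖(1 : ℝ) • a + (0 : ℝ) • c‖ / M ≤ 1
        rw [one_smul, zero_smul, add_zero, div_le_one hMpos]
        exact hM1 R L
      · show ‖(0 : ℝ) • a + (1 : ℝ) • c‖ / M ≤ 1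
        rw [one_smul, zero_smul, zero_add, div_le_one hMpos]
        exact hM1 T B
    have hrec : ∀ v : E, (dt bs v c / d) • a + (dt bs a v / d) • c = v := by
      intro v
      have h := cramer bs a c v
      have h2 : (dt bs v c / d) • a + (dt bs a v / d) • c = (1 / d) • (dt bs v c • a + dt bs a v • c) := by
        rw [smul_add, smul_smul, smul_smul]
        congr 2 <;> ring
      rw [h2, ← h, smul_smul, ← hd, one_div, inv_mul_cancel₀ hdpos.ne', one_smul]
    have hn : ∀ i j, n (dt bs (p i - p j) c / d) (dt bs a (p i - p j) / d) = ‖p i - p j‖ / M := by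
      intro i j
      show ‖(dt bs (p i - p j) c / d) • a + (dt bs a (p i - p j) / d) • c‖ / M = _
      rw [hrec]
    have eX : ∀ i j, dt bs (p i - p L) c / d - dt bs (p j - p L) c / d = dt bs (p i - p j) c / d := by
      intro i j
      rw [← sub_div, ← dt_sub_left]
      congr 2; abel
    have eY : ∀ i j, dt bs a (p i - p B) / d - dt bs a (p j - p B) / d = dt bs a (p i - p j) / d := by
      intro i j
      rw [← sub_div, ← dt_sub_right]
      congr 2; abel
    have hSys : Sys n (fun i => dt bs (p i - p L) c / d) (fun i => dt bs a (p i - p B) / d)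
        L R B T := by
      refine ⟨hnm, fun i j => ?_, fun i j h => ?_, fun i => ?_, fun i => ?_, fun i => ?_,
        fun i => ?_, ?_, ?_, ?_, ?_, ?_, ?_⟩
      · show n (_ - _) (_ - _) ≤ 1
        rw [eX, eY, hn, div_le_one hMpos]; exact hM1 i j
      · show 1 / 2 < n (_ - _) (_ - _)
        rw [eX, eY, hn, lt_div_iff₀ hMpos]
        have := hM2 i j h
        linarith
      · show 0 ≤ dt bs (p i - p L) c / d
        apply div_nonneg _ hdpos.le
        have h1 := hdet1 R i T B
        have h2 : dt bs (p R - p i) (p T - p B) = d - dt bs (p i - p L) c := by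
          rw [hd, ← dt_sub_left]; congr 1; rw [ha]; abel
        linarith
      · show dt bs (p i - p L) c / d ≤ 1
        rw [div_le_one hdpos]; exact hdet1 i L T B
      · show 0 ≤ dt bs a (p i - p B) / d
        apply div_nonneg _ hdpos.le
        have h1 := hdet1 R L T i
        have h2 : dt bs (p R - p L) (p T - p i) = d - dt bs a (p i - p B) := by
          rw [hd, ← dt_sub_right]; congr 1; rw [hc]; abel
        linarith
      · show dt bs a (p i - p B) / d ≤ 1
        rw [div_le_one hdpos]; exact hdet1 R L i B
      · show dt bs (p L - p L) c / d = 0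
        rw [sub_self]; simp [dt]
      · show dt bs (p R - p L) c / d = 1
        exact div_self hdpos.ne'
      · show dt bs a (p L - p B) / d = dt bs a (p R - p B) / d
        have h := eY R L
        have h0 : dt bs a (p R - p L) = 0 := dt_self bs a
        rw [h0, zero_div] at h
        linarith
      · show dt bs a (p B - p B) / d = 0
        rw [sub_self]; simp [dt]
      · show dt bs a (p T - p B) / d = 1
        exact div_self hdpos.ne'
      · show dt bs (p B - p L) c / d = dt bs (p T - p L) c / d
        have h := eX T B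
        have h0 : dt bs (p T - p B) c = 0 := dt_self bs c
        rw [h0, zero_div] at h
        linarith
    exact hSys.false
  · -- collinear points
    have hz : dt bs (p 1 - p 0) (p 2 - p 0) = 0 := by
      have h1 := hdet1 1 0 2 0
      have h2 := hdet2 1 0 2 0
      have h3 := hdet1 R L R L
      have h4 : dt bs (p R - p L) (p R - p L) = 0 := dt_self bs _
      linarith
    set u := p 1 - p 0 with hu
    set v := p 2 - p 0 with hv
    have hu0 : u ≠ 0 := by
      intro h
      have := hM2 1 0 (by decide)
      rw [← hu, h, norm_zero] at this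
      linarith
    obtain ⟨r, hr⟩ : ∃ r : ℝ, v = r • u := by
      by_cases h0 : bs.repr u 0 = 0
      · have h1 : bs.repr u 1 ≠ 0 := by
          intro h1
          apply hu0
          apply bs.repr.injective
          ext i
          fin_cases i <;> simp [h0, h1]
        refine ⟨bs.repr v 1 / bs.repr u 1, ?_⟩
        apply bs.repr.injective
        ext i
        unfold dt at hz
        rw [h0, zero_mul, zero_sub, neg_eq_zero, mul_eq_zero] at hz
        have h2 := hz.resolve_left h1
        fin_cases i
        · simp [h0, h2]
        · simp only [map_smul, Finsupp.smul_apply, smul_eq_mul]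
          show bs.repr v 1 = bs.repr v 1 / bs.repr u 1 * bs.repr u 1
          field_simp
      · refine ⟨bs.repr v 0 / bs.repr u 0, ?_⟩
        apply bs.repr.injective
        ext i
        unfold dt at hz
        fin_cases i
        · simp only [map_smul, Finsupp.smul_apply, smul_eq_mul]
          show bs.repr v 0 = bs.repr v 0 / bs.repr u 0 * bs.repr u 0
          field_simp
        · simp only [map_smul, Finsupp.smul_apply, smul_eq_mul]
          show bs.repr v 1 = bs.repr v 0 / bs.repr u 0 * bs.repr u 1
          field_simp
          linarith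
    have n1 := hM2 1 0 (by decide)
    have n2 := hM2 2 0 (by decide)
    have n3 := hM2 2 1 (by decide)
    have m1 := hM1 1 0
    have m2 := hM1 2 0
    have m3 := hM1 2 1
    have e3 : p 2 - p 1 = (r - 1) • u := by
      have : p 2 - p 1 = v - u := by rw [hu, hv]; abel
      rw [this, hr, sub_smul, one_smul]
    rw [← hu] at n1 m1
    rw [← hv, hr, norm_smul, Real.norm_eq_abs] at n2 m2
    rw [e3, norm_smul, Real.norm_eq_abs] at n3 m3
    have hun : 0 < ‖u‖ := norm_pos_iff.2 hu0
    rcases le_total r 0 with h | h
    · rw [abs_of_nonpos h] at n2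
      rw [abs_of_nonpos (by linarith : r - 1 ≤ 0)] at m3
      nlinarith
    · rcases le_total r 1 with h' | h'
      · rw [abs_of_nonneg h] at n2
        rw [abs_of_nonpos (by linarith : r - 1 ≤ 0)] at n3
        nlinarith
      · rw [abs_of_nonneg h] at m2
        rw [abs_of_nonneg (by linarith : 0 ≤ r - 1)] at n3
        nlinarith

end Pool.Agent.Helper93
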